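import Mathlib

open Set MeasureTheory ProbabilityTheory Filter

namespace Pool.Agent.Results.MP_295da9_pr.Disproof

/-! ### Definitions used in the statement -/

/-- The Euclidean plane. -/
abbrev Plane := EuclideanSpace ℝ (Fin 2)

/-- The set of all points of the plane covered by the straight-line drawing of `G` in which
the vertex `v` is placed at `pos v` and every edge is a straight segment. -/
def drawing {V : Type} (G : SimpleGraph V) (pos : V → Plane) : Set Plane :=
  {z | ∃ u v, G.Adj u v ∧ z ∈ segment ℝ (pos u) (pos v)}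

/-- `pos` gives an embedding of the graph `G` in the plane with straight edges:
distinct vertices have distinct positions, no vertex lies in the interior of an edge, the
interiors of two different edges are disjoint, and every compact set meets only finitely many
edges. Moreover every face (connected component of the complement of the drawing) is a
triangle: it is the open triangle spanned by three pairwise adjacent vertices. -/
structure IsTriangulatedDrawing {V : Type} (G : SimpleGraph V) (pos : V → Plane) : Prop where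
  injective : Function.Injective pos
  vertex_edge : ∀ u v w, G.Adj u v → pos w ∉ openSegment ℝ (pos u) (pos v)
  edge_edge : ∀ u v u' v', G.Adj u v → G.Adj u' v' → s(u, v) ≠ s(u', v') →
    Disjoint (openSegment ℝ (pos u) (pos v)) (openSegment ℝ (pos u') (pos v'))
  locally_finite : ∀ K : Set Plane, IsCompact K →
    {e : V × V | G.Adj e.1 e.2 ∧ (segment ℝ (pos e.1) (pos e.2) ∩ K).Nonempty}.Finite
  face : ∀ z ∉ drawing G pos, ∃ a b c, G.Adj a b ∧ G.Adj b c ∧ G.Adj a c ∧
    connectedComponentIn (drawing G pos)ᶜ z = interior (convexHull ℝ {pos a, pos b, pos c})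

/-- The ball `B(v,n)`: all vertices at graph distance at most `n` from `v`. -/
def ball {V : Type} (G : SimpleGraph V) (v : V) (n : ℕ) : Set V := {w | G.edist v w ≤ n}

/-- Uniform volume growth `f`: there are constants `0 < c < C` such that
`c f(n) < |B(v,n)| < C f(n)` for every `n ≥ 1` and every vertex `v`. -/
def UniformVolumeGrowth {V : Type} (G : SimpleGraph V) (f : ℕ → ℝ) : Prop :=
  ∃ c C : ℝ, 0 < c ∧ c < C ∧ ∀ n : ℕ, 1 ≤ n → ∀ v : V, (ball G v n).Finite ∧
    c * f n < ((ball G v n).ncard : ℝ) ∧ ((ball G v n).ncard : ℝ) < C * f n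

/-- The open cluster of `v` in the configuration `ω` (`ω u = true` means that `u` is open):
all vertices joined to `v` by a path all of whose vertices are open. -/
def cluster {V : Type} (G : SimpleGraph V) (ω : V → Bool) (v : V) : Set V :=
  {w | ∃ p : G.Walk v w, ∀ u ∈ p.support, ω u = true}

/-- Bernoulli site percolation with parameter `p`: the vertices are open independently, each
with probability `p`. -/
noncomputable def siteMeasure (V : Type) (p : unitInterval) : Measure (V → Bool) :=
  Measure.infinitePi (fun _ : V => bernoulliMeasure true false p)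

/-- `θ(p)`: the probability that `v` lies in an infinite open cluster. -/
noncomputable def theta {V : Type} (G : SimpleGraph V) (v : V) (p : unitInterval) : ENNReal :=
  siteMeasure V p {ω | (cluster G ω v).Infinite}

/-- The critical value `sup {p : θ(p) = 0}`. -/
noncomputable def pc {V : Type} (G : SimpleGraph V) (v : V) : ℝ :=
  sSup {p : ℝ | ∃ h : p ∈ unitInterval, theta G v ⟨p, h⟩ = 0}

/-! ### The one-ended tree on the natural numbers -/

/-- parent function of the one-ended tree on ℕ, in terms of base-8 digits -/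
def par (x : ℕ) : ℕ :=
  if h : x % 8 = 1 then 8 * par (x / 8) else 8 * (x / 8) + 1
termination_by x
decreasing_by omega

/-- slot of a tree vertex inside the piece of its parent -/
def slot (x : ℕ) : ℕ :=
  if h : x % 8 = 1 then slot (x / 8) else x % 8
termination_by x
decreasing_by omega

theorem par_one {x : ℕ} (h : x % 8 = 1) : par x = 8 * par (x / 8) := by
  rw [par]; simp [h]

theorem par_ne {x : ℕ} (h : x % 8 ≠ 1) : par x = 8 * (x / 8) + 1 := by
  rw [par]; simp [h]

theorem slot_one {x : ℕ} (h : x % 8 = 1) : slot x = slot (x / 8) := by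
  rw [slot]; simp [h]

theorem slot_ne {x : ℕ} (h : x % 8 ≠ 1) : slot x = x % 8 := by
  rw [slot]; simp [h]

theorem slot_lt (x : ℕ) : slot x < 8 := by
  induction x using Nat.strong_induction_on with
  | _ x ih =>
    by_cases h : x % 8 = 1
    · rw [slot_one h]; exact ih _ (by omega)
    · rw [slot_ne h]; omega

theorem slot_ne_one (x : ℕ) : slot x ≠ 1 := by
  induction x using Nat.strong_induction_on with
  | _ x ih =>
    by_cases h : x % 8 = 1
    · rw [slot_one h]; exact ih _ (by omega)
    · rw [slot_ne h]; omega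

theorem par_ne_self (x : ℕ) : par x ≠ x := by
  by_cases h : x % 8 = 1
  · rw [par_one h]; omega
  · rw [par_ne h]; omega

theorem par_mod (x : ℕ) : par x % 8 = if x % 8 = 1 then 0 else 1 := by
  by_cases h : x % 8 = 1
  · rw [par_one h]; simp [h]
  · rw [par_ne h]; simp only [h, if_false]; omega

theorem par_div (x : ℕ) : par x / 8 = if x % 8 = 1 then par (x / 8) else x / 8 := by
  by_cases h : x % 8 = 1
  · rw [par_one h]; simp [h]
  · rw [par_ne h]; simp only [h, if_false]; omega

theorem iter_div (a : ℕ) : ∀ x : ℕ,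
    (par^[a] x) / 8 = par^[(a + if x % 8 = 1 then 1 else 0) / 2] (x / 8) := by
  induction a with
  | zero => intro x; split_ifs <;> simp
  | succ a ih =>
    intro x
    rw [Function.iterate_succ_apply, ih, par_mod, par_div]
    by_cases h : x % 8 = 1
    · simp only [h, if_true]
      have : (a + 1 + 1) / 2 = (a + if (0:ℕ) = 1 then 1 else 0) / 2 + 1 := by
        rw [if_neg (by norm_num)]; omega
      rw [this, Function.iterate_succ_apply]
    · simp only [h, if_false, if_true]

/-- tree distance at most n (through a common ancestor) -/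
def D (x y n : ℕ) : Prop := ∃ a b, a + b ≤ n ∧ par^[a] x = par^[b] y

theorem D.mono {x y n m : ℕ} (h : D x y n) (hm : n ≤ m) : D x y m := by
  obtain ⟨a, b, h1, h2⟩ := h; exact ⟨a, b, by omega, h2⟩

theorem D_refl (x : ℕ) : D x x 0 := ⟨0, 0, le_refl _, rfl⟩

theorem D_div {x y n : ℕ} (h : D x y n) : D (x / 8) (y / 8) (n / 2 + 1) := by
  obtain ⟨a, b, h1, h2⟩ := h
  have h3 := congrArg (· / 8) h2
  beta_reduce at h3
  rw [iter_div, iter_div] at h3
  exact ⟨_, _, by split_ifs <;> omega, h3⟩

theorem D_div_iter (k : ℕ) : ∀ n x y : ℕ, n ≤ 2 ^ k + 2 → D x y n →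
    D (x / 8 ^ k) (y / 8 ^ k) 3 := by
  induction k with
  | zero => intro n x y hn h; simpa using h.mono (by simpa using hn)
  | succ k ih =>
    intro n x y hn h
    have := ih (n / 2 + 1) (x / 8) (y / 8) (by rw [pow_succ] at hn; omega) (D_div h)
    rwa [Nat.div_div_eq_div_mul, Nat.div_div_eq_div_mul, ← pow_succ'] at this

theorem D_succ {x y z n : ℕ} (h : D x y n) (hz : z = y ∨ par z = y ∨ par y = z) :
    D x z (n + 1) := by
  obtain ⟨a, b, h1, h2⟩ := h
  rcases hz with rfl | hz | hz
  · exact ⟨a, b, by omega, h2⟩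
  · exact ⟨a, b + 1, by omega, by rw [Function.iterate_succ_apply, hz, h2]⟩
  · rcases b with _ | b
    · refine ⟨a + 1, 0, by omega, ?_⟩
      rw [Function.iterate_succ_apply', h2]; simpa using hz
    · refine ⟨a, b, by omega, ?_⟩
      rw [h2, Function.iterate_succ_apply, hz]

theorem par_8mul1 (z : ℕ) : par (8 * z + 1) = 8 * par z := by
  rw [par_one (by omega)]; congr 2; omega

theorem par_8mul (z : ℕ) : par (8 * z) = 8 * z + 1 := by
  rw [par_ne (by omega)]; omega

theorem up_iter (a : ℕ) : ∀ x : ℕ, ∃ a' ≤ 2 * a + 1, par^[a'] x = 8 * par^[a] (x / 8) + 1 := by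
  induction a with
  | zero =>
    intro x
    by_cases h : x % 8 = 1
    · exact ⟨0, by omega, by simp; omega⟩
    · exact ⟨1, by omega, by simp [par_ne h]⟩
  | succ a ih =>
    intro x
    obtain ⟨a', h1, h2⟩ := ih x
    refine ⟨a' + 2, by omega, ?_⟩
    rw [Function.iterate_succ_apply', Function.iterate_succ_apply', h2, par_8mul1, par_8mul,
      Function.iterate_succ_apply']

theorem D_up {x y n : ℕ} (h : D (x / 8) (y / 8) n) : D x y (2 * n + 2) := by
  obtain ⟨a, b, h1, h2⟩ := h
  obtain ⟨a', ha, ha'⟩ := up_iter a x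
  obtain ⟨b', hb, hb'⟩ := up_iter b y
  exact ⟨a', b', by omega, by rw [ha', hb', h2]⟩

theorem D_of_div_eq (k : ℕ) : ∀ x y : ℕ, x / 8 ^ k = y / 8 ^ k → D x y (2 ^ (k + 1) - 2) := by
  induction k with
  | zero => intro x y h; simp at h; subst h; exact D_refl x
  | succ k ih =>
    intro x y h
    rw [pow_succ', ← Nat.div_div_eq_div_mul, ← Nat.div_div_eq_div_mul] at h
    have := D_up (ih _ _ h)
    refine this.mono ?_
    have : 2 ≤ 2 ^ (k + 1) := by
      calc 2 = 2 ^ 1 := by norm_num
        _ ≤ 2 ^ (k+1) := Nat.pow_le_pow_right (by norm_num) (by omega)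
    rw [pow_succ 2 (k + 1)]; omega

theorem iter_ne (n : ℕ) : 1 ≤ n → ∀ x, par^[n] x ≠ x := by
  induction n using Nat.strong_induction_on with
  | _ n ih =>
    intro hn x h
    rcases Nat.lt_or_ge n 2 with h2 | h2
    · have : n = 1 := by omega
      subst this
      exact par_ne_self x (by simpa using h)
    · have h3 := congrArg (· / 8) h
      beta_reduce at h3
      rw [iter_div] at h3
      refine ih _ ?_ ?_ _ h3
      · split_ifs <;> omega
      · split_ifs <;> omega

theorem iter_inj {x a b : ℕ} (h : par^[a] x = par^[b] x) : a = b := by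
  rcases lt_trichotomy a b with hab | hab | hab
  · exfalso
    have : b = (b - a) + a := by omega
    rw [this, Function.iterate_add_apply] at h
    exact iter_ne _ (by omega) _ h.symm
  · exact hab
  · exfalso
    have : a = (a - b) + b := by omega
    rw [this, Function.iterate_add_apply] at h
    exact iter_ne _ (by omega) _ h

theorem par_slot_inj : ∀ x y : ℕ, par x = par y → slot x = slot y → x = y := by
  intro x
  induction x using Nat.strong_induction_on with
  | _ x ih =>
    intro y h1 h2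
    by_cases hx : x % 8 = 1 <;> by_cases hy : y % 8 = 1
    · rw [par_one hx, par_one hy] at h1
      rw [slot_one hx, slot_one hy] at h2
      have := ih (x / 8) (by omega) (y / 8) (by omega) h2
      omega
    · rw [par_one hx, par_ne hy] at h1; omega
    · rw [par_ne hx, par_one hy] at h1; omega
    · rw [par_ne hx, par_ne hy] at h1
      rw [slot_ne hx, slot_ne hy] at h2
      omega

theorem lt_of_par_lt (k : ℕ) : ∀ y : ℕ, par y < 8 ^ k → y < 8 ^ k := by
  induction k with
  | zero =>
    intro y h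
    rcases Nat.eq_zero_or_pos y with rfl | hy
    · simp
    · by_cases h8 : y % 8 = 1
      · rw [par_one h8] at h
        have h0 : par (y / 8) = 0 := by simpa using h
        exfalso
        have key : ∀ z, par z ≠ 0 := by
          intro z
          induction z using Nat.strong_induction_on with
          | _ z ihz =>
            by_cases hz : z % 8 = 1
            · rw [par_one hz]; have := ihz (z / 8) (by omega); omega
            · rw [par_ne hz]; omega
        exact key _ h0
      · rw [par_ne h8] at h; simp at h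
  | succ k ih =>
    intro y h
    by_cases h8 : y % 8 = 1
    · rw [par_one h8, pow_succ'] at h
      have := ih (y / 8) (by omega)
      rw [pow_succ']; omega
    · rw [par_ne h8, pow_succ'] at h
      rw [pow_succ']; omega

theorem chd_bound (S : Set ℕ) (hS : S.Finite) :
    {y | par y ∈ S}.Finite ∧ {y | par y ∈ S}.ncard ≤ 8 * S.ncard := by
  have hinj : Set.InjOn (fun y => (slot y, par y)) {y | par y ∈ S} := by
    intro x _ y _ h
    simp only [Prod.mk.injEq] at h
    exact par_slot_inj x y h.2 h.1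
  have hmaps : ∀ y ∈ {y | par y ∈ S}, (fun y => (slot y, par y)) y ∈ (Set.Iio 8) ×ˢ S := by
    intro y hy
    exact ⟨slot_lt y, hy⟩
  have hfin : ((Set.Iio 8 : Set ℕ) ×ˢ S).Finite := (Set.finite_Iio 8).prod hS
  constructor
  · exact Set.Finite.of_injOn hmaps hinj hfin
  · have := Set.ncard_le_ncard_of_injOn _ hmaps hinj hfin
    rw [Set.ncard_prod] at this
    have h8 : (Set.Iio 8 : Set ℕ).ncard = 8 := by
      rw [Set.ncard_eq_toFinset_card']; simp
    rwa [h8] at this

theorem desc_bound (b : ℕ) : ∀ u : ℕ, {y | par^[b] y = u}.Finite ∧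
    {y | par^[b] y = u}.ncard ≤ 8 ^ b := by
  induction b with
  | zero => intro u; simp
  | succ b ih =>
    intro u
    have h := chd_bound {y | par^[b] y = u} (ih u).1
    have e : {y | par^[b+1] y = u} = {y | par y ∈ {y | par^[b] y = u}} := by
      ext y; simp [Function.iterate_succ_apply]
    rw [e]
    refine ⟨h.1, h.2.trans ?_⟩
    rw [pow_succ']
    exact Nat.mul_le_mul_left _ (ih u).2

theorem D3_bound (x : ℕ) : {y | D x y 3}.Finite ∧ {y | D x y 3}.ncard ≤ 8192 := by
  have hsub : {y | D x y 3} ⊆ ⋃ ab ∈ (Finset.range 4 ×ˢ Finset.range 4),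
      {y | par^[ab.2] y = par^[ab.1] x} := by
    rintro y ⟨a, b, h1, h2⟩
    simp only [Set.mem_iUnion]
    refine ⟨(a, b), ?_, h2.symm⟩
    simp; omega
  have hfin : (⋃ ab ∈ (Finset.range 4 ×ˢ Finset.range 4),
      {y | par^[ab.2] y = par^[ab.1] x}).Finite := by
    apply Set.Finite.biUnion (Finset.finite_toSet _)
    intro ab _
    exact (desc_bound _ _).1
  refine ⟨hfin.subset hsub, (Set.ncard_le_ncard hsub hfin).trans ?_⟩
  refine (Finset.set_ncard_biUnion_le _ _).trans ?_
  calc ∑ ab ∈ (Finset.range 4 ×ˢ Finset.range 4), {y | par^[ab.2] y = par^[ab.1] x}.ncard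
      ≤ ∑ ab ∈ (Finset.range 4 ×ˢ Finset.range 4), 8 ^ 3 := by
        apply Finset.sum_le_sum
        intro ab hab
        refine (desc_bound _ _).2.trans ?_
        simp at hab
        exact Nat.pow_le_pow_right (by norm_num) (by omega)
    _ = 8192 := by simp

theorem Dn_bound (k n x : ℕ) (hn : n ≤ 2 ^ k) :
    {y | D x y n}.Finite ∧ {y | D x y n}.ncard ≤ 8 ^ k * 8192 := by
  have h3 := D3_bound (x / 8 ^ k)
  have hmaps : ∀ y ∈ {y | D x y n}, (fun y => (y % 8 ^ k, y / 8 ^ k)) y ∈
      (Set.Iio (8 ^ k)) ×ˢ {y | D (x / 8 ^ k) y 3} := by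
    intro y hy
    refine ⟨Nat.mod_lt _ (by positivity), ?_⟩
    exact D_div_iter k n x y (by omega) hy
  have hinj : Set.InjOn (fun y : ℕ => (y % 8 ^ k, y / 8 ^ k)) {y | D x y n} := by
    intro a _ b _ h
    simp only [Prod.mk.injEq] at h
    rw [← Nat.div_add_mod a (8 ^ k), ← Nat.div_add_mod b (8 ^ k), h.1, h.2]
  have hfin : ((Set.Iio (8 ^ k) : Set ℕ) ×ˢ {y | D (x / 8 ^ k) y 3}).Finite :=
    (Set.finite_Iio _).prod h3.1
  constructor
  · exact Set.Finite.of_injOn hmaps hinj hfin
  · have := Set.ncard_le_ncard_of_injOn _ hmaps hinj hfin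
    rw [Set.ncard_prod] at this
    have h8 : (Set.Iio (8 ^ k) : Set ℕ).ncard = 8 ^ k := by
      rw [Set.ncard_eq_toFinset_card']; simp
    rw [h8] at this
    exact this.trans (Nat.mul_le_mul_left _ h3.2)

/-! ### The graph and its growth -/

/-- the triple of vertices (numbers in the parent piece) of the slot `t` -/
def slotTriple (t : ℕ) : Fin 3 → Fin 6 :=
  if t = 0 then ![0, 1, 3]
  else if t = 2 then ![4, 1, 2]
  else if t = 3 then ![3, 4, 2]
  else if t = 4 then ![3, 1, 4]
  else if t = 5 then ![5, 3, 2]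
  else if t = 6 then ![0, 5, 2]
  else ![0, 3, 5]

/-- the three earlier neighbours of a vertex -/
def tr (a : ℕ × Fin 6) : Fin 3 → ℕ × Fin 6 :=
  if a.2 = 0 then fun j => (par a.1, slotTriple (slot a.1) j)
  else if a.2 = 1 then
    ![(a.1, 0), (par a.1, slotTriple (slot a.1) 1), (par a.1, slotTriple (slot a.1) 2)]
  else if a.2 = 2 then ![(a.1, 0), (a.1, 1), (par a.1, slotTriple (slot a.1) 2)]
  else if a.2 = 3 then ![(a.1, 0), (a.1, 1), (a.1, 2)]
  else if a.2 = 4 then ![(a.1, 3), (a.1, 1), (a.1, 2)]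
  else ![(a.1, 0), (a.1, 3), (a.1, 2)]

/-- the graph -/
def TG : SimpleGraph (ℕ × Fin 6) :=
  SimpleGraph.fromRel (fun a b => ∃ j, tr a j = b)

theorem tr_fst (a : ℕ × Fin 6) (j : Fin 3) : (tr a j).1 = a.1 ∨ (tr a j).1 = par a.1 := by
  obtain ⟨x, i⟩ := a
  fin_cases i <;> fin_cases j <;> simp [tr]

theorem tr_ne (a : ℕ × Fin 6) (j : Fin 3) : tr a j ≠ a := by
  obtain ⟨x, i⟩ := a
  have h := par_ne_self x
  fin_cases i <;> fin_cases j <;> simp [tr, h]

theorem adj_iff (a b : ℕ × Fin 6) : TG.Adj a b ↔ (∃ j, tr a j = b) ∨ (∃ j, tr b j = a) := by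
  unfold TG
  rw [SimpleGraph.fromRel_adj]
  constructor
  · exact fun h => h.2
  · intro h
    refine ⟨?_, h⟩
    rintro rfl
    rcases h with ⟨j, hj⟩ | ⟨j, hj⟩ <;> exact tr_ne _ _ hj

theorem adj_tr (a : ℕ × Fin 6) (j : Fin 3) : TG.Adj a (tr a j) :=
  (adj_iff _ _).2 (Or.inl ⟨j, rfl⟩)

theorem adj_fst {a b : ℕ × Fin 6} (h : TG.Adj a b) :
    b.1 = a.1 ∨ par b.1 = a.1 ∨ par a.1 = b.1 := by
  rw [adj_iff] at h
  rcases h with ⟨j, hj⟩ | ⟨j, hj⟩
  · rcases tr_fst a j with h | h <;> rw [hj] at h
    · exact Or.inl h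
    · exact Or.inr (Or.inr h.symm)
  · rcases tr_fst b j with h | h <;> rw [hj] at h
    · exact Or.inl h.symm
    · exact Or.inr (Or.inl h.symm)

theorem walk_D {a b : ℕ × Fin 6} (p : TG.Walk a b) : D a.1 b.1 p.length := by
  induction p with
  | nil => exact D_refl _
  | cons h p ih =>
    rename_i u v w
    rw [SimpleGraph.Walk.length_cons]
    -- D v w n and u ~ v
    have hs : D w.1 v.1 p.length := by
      obtain ⟨a, b, h1, h2⟩ := ih; exact ⟨b, a, by omega, h2.symm⟩
    have hs2 : D w.1 u.1 (p.length + 1) := by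
      apply D_succ hs
      rcases adj_fst h with h' | h' | h'
      · exact Or.inl h'.symm
      · exact Or.inr (Or.inr h')
      · exact Or.inr (Or.inl h')
    obtain ⟨a, b, h1, h2⟩ := hs2; exact ⟨b, a, by omega, h2.symm⟩

theorem edist_le_of_adj {a b : ℕ × Fin 6} (h : TG.Adj a b) : TG.edist a b ≤ 1 :=
  (SimpleGraph.edist_eq_one_iff_adj.2 h).le

/-- moving inside a piece to its third vertex -/
theorem edist_piece (x : ℕ) (i : Fin 6) : TG.edist (x, i) (x, 3) ≤ 1 := by
  by_cases h3 : i = 3
  · subst h3; simp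
  · apply edist_le_of_adj
    rw [adj_iff]
    fin_cases i
    · right; exact ⟨0, by simp [tr]⟩
    · right; exact ⟨1, by simp [tr]⟩
    · right; exact ⟨2, by simp [tr]⟩
    · simp at h3
    · left; exact ⟨0, by simp [tr]⟩
    · left; exact ⟨1, by simp [tr]⟩

theorem edist_up (x : ℕ) : TG.edist (x, 3) (par x, 3) ≤ 3 := by
  have h1 : TG.edist (x, 3) (x, 0) ≤ 1 := by
    rw [SimpleGraph.edist_comm]; exact edist_piece x 0
  have h2 : TG.edist (x, 0) (par x, slotTriple (slot x) 0) ≤ 1 := by
    apply edist_le_of_adj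
    rw [adj_iff]; left; exact ⟨0, by simp [tr]⟩
  have h3 := edist_piece (par x) (slotTriple (slot x) 0)
  calc TG.edist (x, 3) (par x, 3) ≤ TG.edist (x, 3) (x, 0) + TG.edist (x, 0) (par x, 3) :=
        SimpleGraph.edist_triangle
    _ ≤ TG.edist (x, 3) (x, 0) + (TG.edist (x, 0) (par x, slotTriple (slot x) 0) +
        TG.edist (par x, slotTriple (slot x) 0) (par x, 3)) := by
        gcongr; exact SimpleGraph.edist_triangle
    _ ≤ 1 + (1 + 1) := by gcongr
    _ = 3 := by norm_num

theorem edist_iter (a x : ℕ) : TG.edist (x, 3) (par^[a] x, 3) ≤ ((3 * a : ℕ) : ℕ∞) := by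
  induction a with
  | zero => simp
  | succ a ih =>
    rw [Function.iterate_succ_apply']
    calc TG.edist (x, 3) (par (par^[a] x), 3) ≤ TG.edist (x, 3) (par^[a] x, 3) +
          TG.edist (par^[a] x, 3) (par (par^[a] x), 3) := SimpleGraph.edist_triangle
      _ ≤ ((3 * a : ℕ) : ℕ∞) + 3 := by gcongr; exact edist_up _
      _ = ((3 * (a + 1) : ℕ) : ℕ∞) := by push_cast; ring

theorem edist_of_D {x y n : ℕ} (h : D x y n) (i j : Fin 6) :
    TG.edist (x, i) (y, j) ≤ ((3 * n + 2 : ℕ) : ℕ∞) := by
  obtain ⟨a, b, h1, h2⟩ := h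
  have h3 : TG.edist (x, 3) (y, 3) ≤ ((3 * a + 3 * b : ℕ) : ℕ∞) := by
    calc TG.edist (x, 3) (y, 3) ≤ TG.edist (x, 3) (par^[a] x, 3) +
          TG.edist (par^[a] x, 3) (y, 3) := SimpleGraph.edist_triangle
      _ ≤ ((3 * a : ℕ) : ℕ∞) + ((3 * b : ℕ) : ℕ∞) := by
          gcongr
          · exact edist_iter a x
          · rw [h2, SimpleGraph.edist_comm]; exact edist_iter b y
      _ = _ := by push_cast; rfl
  calc TG.edist (x, i) (y, j) ≤ TG.edist (x, i) (x, 3) + TG.edist (x, 3) (y, j) :=
        SimpleGraph.edist_triangle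
    _ ≤ TG.edist (x, i) (x, 3) + (TG.edist (x, 3) (y, 3) + TG.edist (y, 3) (y, j)) := by
        gcongr; exact SimpleGraph.edist_triangle
    _ ≤ 1 + (((3 * a + 3 * b : ℕ) : ℕ∞) + 1) := by
        gcongr
        · exact edist_piece x i
        · rw [SimpleGraph.edist_comm]; exact edist_piece y j
    _ = ((3 * a + 3 * b + 2 : ℕ) : ℕ∞) := by push_cast; ring
    _ ≤ _ := by
        norm_cast; omega

theorem exists_lt_pow (x : ℕ) : x < 8 ^ x := Nat.lt_pow_self (by norm_num)

theorem exists_D (x y : ℕ) : ∃ n, D x y n := by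
  have h : x / 8 ^ (x + y) = y / 8 ^ (x + y) := by
    have h1 : x < 8 ^ (x + y) :=
      (exists_lt_pow x).trans_le (Nat.pow_le_pow_right (by norm_num) (by omega))
    have h2 : y < 8 ^ (x + y) :=
      (exists_lt_pow y).trans_le (Nat.pow_le_pow_right (by norm_num) (by omega))
    rw [Nat.div_eq_of_lt h1, Nat.div_eq_of_lt h2]
  exact ⟨_, D_of_div_eq _ _ _ h⟩

theorem TG_connected : TG.Connected := by
  refine ⟨?_⟩
  rintro ⟨x, i⟩ ⟨y, j⟩
  obtain ⟨n, hn⟩ := exists_D x y
  have := edist_of_D hn i j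
  rw [← SimpleGraph.edist_ne_top_iff_reachable]
  exact ne_top_of_le_ne_top (ENat.natCast_ne_top _) this


theorem ball_sub (x : ℕ) (i : Fin 6) (n : ℕ) :
    ball TG (x, i) n ⊆ {y | D x y n} ×ˢ (Set.univ : Set (Fin 6)) := by
  rintro ⟨y, j⟩ h
  refine ⟨?_, Set.mem_univ _⟩
  have h' : TG.edist (x, i) (y, j) ≤ n := h
  obtain ⟨p, hp⟩ := SimpleGraph.exists_walk_of_edist_ne_top
    (ne_top_of_le_ne_top (ENat.natCast_ne_top n) h')
  rw [← hp] at h'
  exact (walk_D p).mono (by exact_mod_cast h')

theorem sub_ball (x : ℕ) (i : Fin 6) (k n : ℕ) (h : 6 * 2 ^ k ≤ n) :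
    {y | y / 8 ^ k = x / 8 ^ k} ×ˢ (Set.univ : Set (Fin 6)) ⊆ ball TG (x, i) n := by
  rintro ⟨y, j⟩ ⟨h1, -⟩
  have h2 := edist_of_D (D_of_div_eq k x y (Eq.symm h1)) i j
  refine le_trans h2 ?_
  norm_cast
  have : 2 ≤ 2 ^ (k + 1) := by
    calc 2 = 2 ^ 1 := by norm_num
      _ ≤ 2 ^ (k+1) := Nat.pow_le_pow_right (by norm_num) (by omega)
  have h4 : 2 ^ (k + 1) = 2 * 2 ^ k := by ring
  omega

theorem ball_finite (v : ℕ × Fin 6) (n : ℕ) : (ball TG v n).Finite := by
  obtain ⟨x, i⟩ := v
  exact ((Dn_bound n n x (Nat.lt_two_pow_self.le)).1.prod Set.finite_univ).subset (ball_sub x i n)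

theorem ball_upper (v : ℕ × Fin 6) (n : ℕ) (hn : 1 ≤ n) :
    (ball TG v n).ncard < 400000 * n ^ 3 := by
  obtain ⟨x, i⟩ := v
  -- choose k with n ≤ 2^k < 2 n
  obtain ⟨k, hk1, hk2⟩ : ∃ k, n ≤ 2 ^ k ∧ 2 ^ k < 2 * n := by
    refine ⟨Nat.clog 2 n, Nat.le_pow_clog (by norm_num) n, ?_⟩
    rcases Nat.lt_or_ge 1 n with h1 | h1
    · have := Nat.pow_pred_clog_lt_self (b := 2) (by norm_num) h1
      have hpos : 0 < Nat.clog 2 n := Nat.clog_pos (by norm_num) (by omega)
      have h2 : 2 ^ (Nat.clog 2 n) = 2 * 2 ^ (Nat.clog 2 n).pred := by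
        rw [← pow_succ']; congr 1; rw [← Nat.succ_eq_add_one, Nat.succ_pred_eq_of_pos hpos]
      omega
    · have : n = 1 := by omega
      subst this; simp
  have hb := Dn_bound k n x hk1
  have h1 : (ball TG (x, i) n).ncard ≤ ({y | D x y n} ×ˢ (Set.univ : Set (Fin 6))).ncard :=
    Set.ncard_le_ncard (ball_sub x i n) (hb.1.prod Set.finite_univ)
  rw [Set.ncard_prod, Set.ncard_univ, Nat.card_eq_fintype_card, Fintype.card_fin] at h1
  have h8 : 8 ^ k < 8 * n ^ 3 := by
    have : (8:ℕ) ^ k = (2 ^ k) ^ 3 := by rw [← pow_mul, mul_comm, pow_mul]; norm_num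
    rw [this]
    calc (2 ^ k) ^ 3 < (2 * n) ^ 3 := Nat.pow_lt_pow_left hk2 (by norm_num)
      _ = 8 * n ^ 3 := by ring
  have h9 := hb.2
  omega

theorem block_ncard (k x : ℕ) : {y | y / 8 ^ k = x / 8 ^ k}.Finite ∧
    8 ^ k ≤ {y | y / 8 ^ k = x / 8 ^ k}.ncard := by
  have hfin : {y | y / 8 ^ k = x / 8 ^ k}.Finite := by
    apply (Set.finite_Iio (8 ^ k * (x / 8 ^ k + 1))).subset
    intro y hy
    simp only [Set.mem_ofPred_eq] at hy
    rw [Set.mem_Iio, ← hy]
    exact Nat.lt_mul_div_succ y (by positivity)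
  refine ⟨hfin, ?_⟩
  have h8 : (Set.Iio (8 ^ k) : Set ℕ).ncard = 8 ^ k := by
    rw [Set.ncard_eq_toFinset_card']; simp
  have := Set.ncard_le_ncard_of_injOn (s := (Set.Iio (8 ^ k) : Set ℕ))
    (t := {y | y / 8 ^ k = x / 8 ^ k}) (fun r => 8 ^ k * (x / 8 ^ k) + r) ?_ ?_ hfin
  · rwa [h8] at this
  · intro r hr
    simp only [Set.mem_ofPred_eq]
    rw [Nat.mul_add_div (by positivity), Nat.div_eq_of_lt hr, Nat.add_zero]
  · intro a _ b _ hab
    simpa using hab

theorem ball_lower (v : ℕ × Fin 6) (n : ℕ) (hn : 1 ≤ n) :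
    n ^ 3 < 8000 * (ball TG v n).ncard := by
  obtain ⟨x, i⟩ := v
  rcases Nat.lt_or_ge n 6 with h | h
  · have h1 : 1 ≤ (ball TG (x, i) n).ncard := by
      have : {(x, i)} ⊆ ball TG (x, i) n := by
        rintro _ rfl; simp [ball]
      have := Set.ncard_le_ncard this (ball_finite _ _)
      rwa [Set.ncard_singleton] at this
    have : n ^ 3 ≤ 5 ^ 3 := Nat.pow_le_pow_left (by omega) 3
    omega
  · -- k = log2 (n/6)
    set k := Nat.log 2 (n / 6) with hk
    have hk1 : 2 ^ k ≤ n / 6 := Nat.pow_log_le_self 2 (by omega)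
    have hk2 : n / 6 < 2 ^ (k + 1) := Nat.lt_pow_succ_log_self (by norm_num) _
    have hsub := sub_ball x i k n (by omega)
    have h1 := Set.ncard_le_ncard hsub (ball_finite _ _)
    rw [Set.ncard_prod, Set.ncard_univ, Nat.card_eq_fintype_card, Fintype.card_fin] at h1
    have h2 := (block_ncard k x).2
    have h3 : n < 12 * 2 ^ k := by
      have : 2 ^ (k + 1) = 2 * 2 ^ k := by ring
      omega
    have h4 : n ^ 3 < (12 * 2 ^ k) ^ 3 := Nat.pow_lt_pow_left h3 (by norm_num)
    have h5 : (12 * 2 ^ k) ^ 3 = 1728 * 8 ^ k := by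
      rw [mul_pow, ← pow_mul, mul_comm k 3, pow_mul]; norm_num
    omega

/-! ### Percolation -/

/-- all vertices of the piece over z are closed -/
def closedPiece (z : ℕ) : Set (ℕ × Fin 6 → Bool) := {ω | ∀ i, ω (z, i) = false}

theorem cluster_sub (ω : ℕ × Fin 6 → Bool) (z : ℕ) (hz : ω ∈ closedPiece z) :
    ∀ (u w : ℕ × Fin 6) (p : TG.Walk u w), (∃ l, par^[l + 1] u.1 = z) →
      (∀ v ∈ p.support, ω v = true) → ∃ l, par^[l + 1] w.1 = z := by
  intro u w p
  induction p with
  | nil => intro h _; exact h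
  | cons h p ih =>
    rename_i u v w
    intro hl ho
    apply ih
    · obtain ⟨l, hl⟩ := hl
      rcases adj_fst h with h' | h' | h'
      · exact ⟨l, by rw [h']; exact hl⟩
      · refine ⟨l + 1, ?_⟩
        rw [Function.iterate_succ_apply, h']; exact hl
      · rcases l with _ | l
        · exfalso
          have h1 : v.1 = z := by rw [← h']; simpa using hl
          have h2 : ω v = true := ho v (by simp)
          have h3 := hz v.2
          rw [← h1] at h3
          rw [h2] at h3
          exact Bool.noConfusion h3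
        · refine ⟨l, ?_⟩
          rw [← h']
          rw [Function.iterate_succ_apply] at hl
          exact hl
    · intro v hv
      exact ho v (by simp [hv])

theorem desc_finite (z : ℕ) : {y | ∃ l, par^[l] y = z}.Finite := by
  apply (Set.finite_Iio (8 ^ z)).subset
  rintro y ⟨l, hl⟩
  simp only [Set.mem_Iio]
  induction l generalizing y with
  | zero => simp at hl; subst hl; exact exists_lt_pow y
  | succ l ih =>
    rw [Function.iterate_succ_apply] at hl
    exact lt_of_par_lt _ _ (ih hl)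

theorem cluster_finite (ω : ℕ × Fin 6 → Bool) (v : ℕ × Fin 6) (m : ℕ)
    (hz : ω ∈ closedPiece (par^[m + 1] v.1)) : (cluster TG ω v).Finite := by
  apply ((desc_finite (par^[m + 1] v.1)).prod (Set.finite_univ (α := Fin 6))).subset
  rintro w ⟨p, hp⟩
  refine ⟨?_, Set.mem_univ _⟩
  obtain ⟨l, hl⟩ := cluster_sub ω _ hz v w p ⟨m, rfl⟩ hp
  exact ⟨l + 1, hl⟩

theorem closedPiece_eq (z : ℕ) : closedPiece z =
    Set.pi (({z} : Finset ℕ) ×ˢ (Finset.univ : Finset (Fin 6)) : Finset (ℕ × Fin 6))
      (fun _ => ({false} : Set Bool)) := by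
  ext ω
  simp only [closedPiece, Set.mem_pi, Set.mem_ofPred_eq]
  constructor
  · rintro h ⟨a, i⟩ ha
    simp at ha
    subst ha
    simpa using h i
  · intro h i
    simpa using h (z, i) (by simp)

theorem closedPiece_meas (z : ℕ) : MeasurableSet (closedPiece z) := by
  rw [closedPiece_eq]
  exact MeasurableSet.pi (Finset.countable_toSet _) (fun _ _ => measurableSet_singleton _)

theorem iInter_closed (x : ℕ) (S : Finset ℕ) :
    (⋂ m ∈ S, closedPiece (par^[m + 1] x)) =
    Set.pi ((S.image (fun m => par^[m + 1] x)) ×ˢ (Finset.univ : Finset (Fin 6)) :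
      Finset (ℕ × Fin 6)) (fun _ => ({false} : Set Bool)) := by
  ext ω
  simp only [closedPiece, Set.mem_iInter, Set.mem_pi, Set.mem_ofPred_eq]
  constructor
  · rintro h ⟨a, i⟩ ha
    simp at ha
    obtain ⟨m, hm, rfl⟩ := ha
    simpa using h m hm i
  · intro h m hm i
    simpa using h (par^[m + 1] x, i) (by simp; exact ⟨m, hm, rfl⟩)

theorem box_measure (T : Finset (ℕ × Fin 6)) (p : unitInterval) :
    siteMeasure (ℕ × Fin 6) p (Set.pi (T : Set (ℕ × Fin 6)) (fun _ => ({false} : Set Bool))) =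
      (ENNReal.ofReal (1 - p)) ^ T.card := by
  unfold siteMeasure
  rw [Measure.infinitePi_pi _ (fun _ _ => measurableSet_singleton _)]
  have : (bernoulliMeasure true false p) ({false} : Set Bool) = ENNReal.ofReal (1 - p) := by
    rw [bernoulliMeasure_apply_of_notMem_of_mem p (measurableSet_singleton _) (by simp) (by simp)]
    rw [ENNReal.ofReal]
    congr 1
    ext
    simp [unitInterval.coe_symm_eq]
    exact p.2.2
  rw [Finset.prod_congr rfl (fun _ _ => this), Finset.prod_const]

theorem indep (x : ℕ) (p : unitInterval) :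
    iIndepSet (fun m => closedPiece (par^[m + 1] x)) (siteMeasure (ℕ × Fin 6) p) := by
  rw [iIndepSet_iff_meas_biInter (fun m => closedPiece_meas _)]
  intro S
  rw [iInter_closed, box_measure, Finset.card_product, Finset.card_image_of_injective]
  · have : ∀ m ∈ S, siteMeasure (ℕ × Fin 6) p (closedPiece (par^[m + 1] x)) =
        (ENNReal.ofReal (1 - p)) ^ 6 := by
      intro m _
      rw [closedPiece_eq, box_measure]
      simp
    rw [Finset.prod_congr rfl this, Finset.prod_const, ← pow_mul]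
    simp [mul_comm]
  · intro a b h
    have := iter_inj h
    omega

theorem theta_zero (v : ℕ × Fin 6) (p : unitInterval) (hp : (p : ℝ) < 1) :
    theta TG v p = 0 := by
  have : IsProbabilityMeasure (siteMeasure (ℕ × Fin 6) p) := by
    unfold siteMeasure; infer_instance
  have hlim := measure_limsup_eq_one (μ := siteMeasure (ℕ × Fin 6) p)
    (s := fun m => closedPiece (par^[m + 1] v.1)) (fun m => closedPiece_meas _) (indep v.1 p) (by
      have : ∀ m, siteMeasure (ℕ × Fin 6) p (closedPiece (par^[m + 1] v.1)) =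
        (ENNReal.ofReal (1 - p)) ^ 6 := by
        intro m
        rw [closedPiece_eq, box_measure]
        simp
      simp only [this]
      apply ENNReal.tsum_const_eq_top_of_ne_zero
      apply pow_ne_zero
      simpa using hp)
  unfold theta
  have hsub : {ω | (cluster TG ω v).Infinite} ⊆
      (limsup (fun m => closedPiece (par^[m + 1] v.1)) atTop)ᶜ := by
    intro ω hω hlim
    rw [Filter.mem_limsup_iff_frequently_mem] at hlim
    obtain ⟨m, hm⟩ := hlim.exists
    exact hω (cluster_finite ω v m hm)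
  refine measure_mono_null hsub ?_
  rw [prob_compl_eq_zero_iff]
  · exact hlim
  · exact MeasurableSet.measurableSet_limsup (fun m => closedPiece_meas _)

theorem pc_eq_one (v : ℕ × Fin 6) : pc TG v = 1 := by
  unfold pc
  apply le_antisymm
  · apply csSup_le
    · exact ⟨0, ⟨le_refl _, zero_le_one⟩, theta_zero v _ (by norm_num)⟩
    · rintro p ⟨h, -⟩; exact h.2
  · apply le_of_forall_lt
    intro c hc
    obtain ⟨d, hd1, hd2⟩ := exists_between (max_lt hc zero_lt_one)
    refine lt_of_lt_of_le (lt_of_le_of_lt (le_max_left c 0) hd1) ?_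
    apply le_csSup
    · exact ⟨1, by rintro p ⟨h, -⟩; exact h.2⟩
    · have h0 : 0 ≤ d := (le_max_right c 0).trans hd1.le
      exact ⟨⟨h0, hd2.le⟩, theta_zero v _ hd2⟩

/-! ### Geometry of stacked triangulations -/

theorem aff_sum (f : Plane →ᵃ[ℝ] ℝ) (w : Fin 3 → ℝ) (p : Fin 3 → Plane) :
    ∑ j, w j * f (p j) = f.linear (∑ j, w j • p j) + (∑ j, w j) * f 0 := by
  have h : ∀ x, f x = f.linear x + f 0 := by
    intro x
    have := congrFun f.decomp x
    simpa using this
  simp only [h (p _), map_sum, map_smul, smul_eq_mul, mul_add, Finset.sum_add_distrib,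
    Finset.sum_mul]

theorem coord_comb (B : AffineBasis (Fin 3) ℝ Plane) (w : Fin 3 → ℝ) (hw : ∑ j, w j = 1)
    (i : Fin 3) : B.coord i (∑ j, w j • B j) = w i := by
  have := B.coord_apply_combination_of_mem (Finset.mem_univ i) hw
  rwa [Finset.affineCombination_eq_linear_combination _ _ _ hw] at this

theorem comb_coord (B : AffineBasis (Fin 3) ℝ Plane) (z : Plane) :
    ∑ j, B.coord j z • B j = z := B.linear_combination_coord_eq_self z

theorem top_of_ind {F : Fin 3 → Plane} (h : AffineIndependent ℝ F) :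
    affineSpan ℝ (Set.range F) = ⊤ := by
  apply h.affineSpan_eq_top_iff_card_eq_finrank_add_one.2
  simp

/-- three affinely independent points form an affine basis of the plane -/
noncomputable def mkB {F : Fin 3 → Plane} (h : AffineIndependent ℝ F) :
    AffineBasis (Fin 3) ℝ Plane := ⟨F, h, top_of_ind h⟩

@[simp] theorem mkB_apply {F : Fin 3 → Plane} (h : AffineIndependent ℝ F) (j : Fin 3) :
    mkB h j = F j := rfl

theorem ind_update {F : Fin 3 → Plane} (h : AffineIndependent ℝ F) (q : Fin 3 → ℝ)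
    (hq : ∀ j, 0 < q j) (hq1 : ∑ j, q j = 1) (s : Fin 3) :
    AffineIndependent ℝ (Function.update F s (∑ j, q j • F j)) := by
  rw [affineIndependent_iff_of_fintype]
  intro w hw hs i
  rw [Finset.weightedVSub_eq_linear_combination _ hw] at hs
  have key : ∀ i, ∑ j, w j * (mkB h).coord i ((Function.update F s (∑ j, q j • F j)) j) = 0 := by
    intro i
    rw [aff_sum, hs, hw]; simp
  have hc : ∀ i j, (mkB h).coord i (F j) = if i = j then 1 else 0 := by
    intro i j
    exact (mkB h).coord_apply i j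
  have hg : ∀ i, (mkB h).coord i (∑ j, q j • F j) = q i := by
    intro i
    exact coord_comb (mkB h) q hq1 i
  have h0 := key 0
  have h1 := key 1
  have h2 := key 2
  simp only [Fin.sum_univ_three] at h0 h1 h2 hg
  have q0 := hq 0
  have q1 := hq 1
  have q2 := hq 2
  fin_cases s <;> simp [hc, Fin.sum_univ_three, Function.update, hg] at h0 h1 h2
  · have : w 0 = 0 := by rcases h0 with h | h <;> [exact h; exact absurd h q0.ne']
    simp [this] at h1 h2
    fin_cases i <;> simp [this, h1, h2]
  · have : w 1 = 0 := by rcases h1 with h | h <;> [exact h; exact absurd h q1.ne']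
    simp [this] at h0 h2
    fin_cases i <;> simp [this, h0, h2]
  · have : w 2 = 0 := by rcases h2 with h | h <;> [exact h; exact absurd h q2.ne']
    simp [this] at h0 h1
    fin_cases i <;> simp [this, h0, h1]

/-- change of barycentric coordinates when vertex `s` is replaced by the point with
coordinates `q` -/
theorem coord_child (B B' : AffineBasis (Fin 3) ℝ Plane) (q : Fin 3 → ℝ)
    (hq1 : ∑ j, q j = 1) (s : Fin 3) (h : ⇑B' = Function.update B s (∑ j, q j • B j))
    (z : Plane) : B.coord s z = B'.coord s z * q s ∧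
      ∀ i, i ≠ s → B.coord i z = B'.coord i z + B'.coord s z * q i := by
  have hz := comb_coord B' z
  have hsum := B'.sum_coord_apply_eq_one z
  set c := fun j => B'.coord j z with hcdef
  have hw : ∀ i, B.coord i z = if i = s then c s * q s else c i + c s * q i := by
    intro i
    have e : z = ∑ j, (if j = s then c s * q s else c j + c s * q j) • B j := by
      rw [← hz, h]
      simp only [Fin.sum_univ_three]
      fin_cases s <;> simp [Function.update, smul_add, add_smul, mul_smul, c] <;> abel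
    have hs1 : ∑ j, (if j = s then c s * q s else c j + c s * q j) = 1 := by
      simp only [Fin.sum_univ_three] at hsum hq1 ⊢
      have hsum' : c 0 + c 1 + c 2 = 1 := hsum
      have e2 : c s * (q 0 + q 1 + q 2) = c s := by rw [hq1, mul_one]
      fin_cases s <;> simp at e2 ⊢ <;> linarith
    conv_lhs => rw [e]
    rw [coord_comb B _ hs1]
  constructor
  · rw [hw s]; simp [c]
  · intro i hi
    rw [hw i, if_neg hi]

theorem third : ∀ i j : Fin 3, ∃ k : Fin 3, k ≠ i ∧ k ≠ j := by decide

/-- data of an infinite stacked triangulation -/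
structure Apo {V : Type} (G : SimpleGraph V) (P : V → V) (s : V → Fin 3) (tr : V → Fin 3 → V)
    (q : V → Fin 3 → ℝ) (pos : V → Plane) : Prop where
  adj : ∀ a b, G.Adj a b ↔ (∃ j, tr a j = b) ∨ (∃ j, tr b j = a)
  htr : ∀ a, tr a = Function.update (tr (P a)) (s a) (P a)
  inj : ∀ a b, P a = P b → s a = s b → a = b
  qpos : ∀ a j, 0 < q a j
  qsum : ∀ a, ∑ j, q a j = 1
  hpos : ∀ a, pos a = ∑ j, q a j • pos (tr a j)
  ind : ∀ a, AffineIndependent ℝ (fun j => pos (tr a j))
  com : ∀ a b, ∃ n m, P^[n] a = P^[m] b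
  anc : ∀ a j, ∃ n, P^[n] a = tr a j
  fin : ∀ a, {b | ∃ n, P^[n] b = a}.Finite
  adjtr : ∀ a i j, i ≠ j → G.Adj (tr a i) (tr a j)

namespace Apo

variable {V : Type} {G : SimpleGraph V} {P : V → V} {s : V → Fin 3} {tr : V → Fin 3 → V}
  {q : V → Fin 3 → ℝ} {pos : V → Plane} (h : Apo G P s tr q pos)

include h

/-- barycentric coordinates relative to the triangle of `a` -/
noncomputable def L (a : V) (z : Plane) (j : Fin 3) : ℝ := (mkB (h.ind a)).coord j z

/-- the open triangle of `a` -/
def region (a : V) : Set Plane := {z | ∀ j, 0 < h.L a z j}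

theorem L_comb (a : V) (w : Fin 3 → ℝ) (hw : ∑ j, w j = 1) (i : Fin 3) :
    h.L a (∑ j, w j • pos (tr a j)) i = w i := coord_comb (mkB (h.ind a)) w hw i

theorem comb_L (a : V) (z : Plane) : ∑ j, h.L a z j • pos (tr a j) = z :=
  comb_coord (mkB (h.ind a)) z

theorem L_sum (a : V) (z : Plane) : ∑ j, h.L a z j = 1 :=
  (mkB (h.ind a)).sum_coord_apply_eq_one z

theorem L_pos (a : V) (j : Fin 3) : h.L a (pos a) j = q a j := by
  rw [h.hpos a]; exact h.L_comb a _ (h.qsum a) j

theorem isOpen_region (a : V) : IsOpen (h.region a) := by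
  have : h.region a = ⋂ j, {z | 0 < h.L a z j} := by
    ext z; simp [region]
  rw [this]
  apply isOpen_iInter_of_finite
  intro j
  apply isOpen_lt continuous_const
  exact ((mkB (h.ind a)).coord j).continuous_of_finiteDimensional

theorem pos_mem_region (a : V) : pos a ∈ h.region a := by
  intro j; rw [h.L_pos]; exact h.qpos a j

theorem L_child (b : V) (z : Plane) :
    h.L (P b) z (s b) = h.L b z (s b) * q (P b) (s b) ∧
      ∀ i, i ≠ s b → h.L (P b) z i = h.L b z i + h.L b z (s b) * q (P b) i := by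
  apply coord_child (mkB (h.ind (P b))) (mkB (h.ind b)) (q (P b)) (h.qsum _) (s b)
  ext1 j
  simp only [mkB_apply]
  rw [← h.hpos (P b), h.htr b]
  by_cases hj : j = s b
  · subst hj; simp
  · simp [Function.update_of_ne hj]

theorem region_sub (b : V) : h.region b ⊆ h.region (P b) := by
  intro z hz j
  obtain ⟨h1, h2⟩ := h.L_child b z
  by_cases hj : j = s b
  · subst hj; rw [h1]; exact mul_pos (hz _) (h.qpos _ _)
  · rw [h2 j hj]
    have := hz j
    have := mul_pos (hz (s b)) (h.qpos (P b) j)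
    positivity

theorem region_sub_iter (n : ℕ) : ∀ b, h.region b ⊆ h.region (P^[n] b) := by
  induction n with
  | zero => intro b; simp
  | succ n ih =>
    intro b
    rw [Function.iterate_succ_apply]
    exact (h.region_sub b).trans (ih _)

/-- strict minimum condition at index `i` -/
def SM (a : V) (z : Plane) (i : Fin 3) : Prop :=
  ∀ j, j ≠ i → h.L a z i * q a j < h.L a z j * q a i

theorem SM_unique {a : V} {z : Plane} {i j : Fin 3} (hi : h.SM a z i) (hj : h.SM a z j) :
    i = j := by
  by_contra hne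
  have h1 := hi j (Ne.symm hne)
  have h2 := hj i hne
  linarith

theorem SM_of_child {b : V} {z : Plane} (hz : z ∈ h.region b) : h.SM (P b) z (s b) := by
  intro j hj
  obtain ⟨h1, h2⟩ := h.L_child b z
  rw [h1, h2 j hj]
  have := mul_pos (hz j) (h.qpos (P b) (s b))
  nlinarith

theorem child_of_SM {b : V} {z : Plane} (hz : z ∈ h.region (P b)) (hm : h.SM (P b) z (s b)) :
    z ∈ h.region b := by
  obtain ⟨h1, h2⟩ := h.L_child b z
  have hs : 0 < h.L b z (s b) := by
    have := hz (s b)
    rw [h1] at this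
    exact (pos_iff_pos_of_mul_pos this).2 (h.qpos _ _)
  intro j
  by_cases hj : j = s b
  · subst hj; exact hs
  · have h3 := hm j hj
    rw [h1, h2 j hj] at h3
    have h4 : 0 < h.L b z j * q (P b) (s b) := by nlinarith
    exact (pos_iff_pos_of_mul_pos h4).2 (h.qpos _ _)

/-- coordinates of a point on a spoke -/
theorem L_spoke {a : V} {i : Fin 3} {z : Plane} (hz : z ∈ segment ℝ (pos a) (pos (tr a i))) :
    ∃ t : ℝ, 0 ≤ t ∧ t ≤ 1 ∧ z = (1 - t) • pos a + t • pos (tr a i) ∧
      ∀ j, h.L a z j = (1 - t) * q a j + (if j = i then t else 0) := by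
  obtain ⟨u, t, hu, ht, hut, rfl⟩ := hz
  have hu' : u = 1 - t := by linarith
  subst hu'
  refine ⟨t, ht, by linarith, rfl, ?_⟩
  intro j
  have e : (1 - t) • pos a + t • pos (tr a i) =
      ∑ j, ((1 - t) * q a j + (if j = i then t else 0)) • pos (tr a j) := by
    simp only [add_smul, Finset.sum_add_distrib, mul_smul, ← Finset.smul_sum, ← h.hpos a]
    congr 1
    simp [ite_smul]
  have hs : ∑ j, ((1 - t) * q a j + (if j = i then t else 0)) = 1 := by
    simp only [Finset.sum_add_distrib, ← Finset.mul_sum, h.qsum a]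
    simp
  rw [e, h.L_comb a _ hs]

theorem spoke_not_SM {a : V} {i : Fin 3} {z : Plane}
    (hz : z ∈ segment ℝ (pos a) (pos (tr a i))) (k : Fin 3) : ¬ h.SM a z k := by
  obtain ⟨t, ht0, ht1, -, hL⟩ := h.L_spoke hz
  intro hk
  by_cases hki : k = i
  · subst hki
    obtain ⟨j, hj⟩ : ∃ j : Fin 3, j ≠ k := exists_ne k
    have := hk j hj
    rw [hL, hL, if_pos rfl, if_neg hj] at this
    have := mul_nonneg ht0 (h.qpos a j).le
    nlinarith
  · obtain ⟨j, hj1, hj2⟩ := third k i
    have := hk j hj1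
    rw [hL, hL, if_neg hki, if_neg hj2] at this
    nlinarith

theorem not_mem_of_spoke {b : V} {i : Fin 3} {z : Plane} (n : ℕ)
    (hz : z ∈ segment ℝ (pos (P^[n + 1] b)) (pos (tr (P^[n + 1] b) i))) : z ∉ h.region b := by
  intro hb
  rw [Function.iterate_succ_apply'] at hz
  exact h.spoke_not_SM hz _ (h.SM_of_child (h.region_sub_iter n b hb))

theorem iter_ne (a : V) (n : ℕ) : P^[n + 1] a ≠ a := by
  intro hn
  have := h.pos_mem_region a
  refine h.not_mem_of_spoke (i := 0) n ?_ this
  rw [hn]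
  exact left_mem_segment ℝ _ _

theorem nested {z : Plane} (n : ℕ) : ∀ (m : ℕ) (a b : V), P^[n] a = P^[m] b →
    z ∈ h.region a → z ∈ h.region b → (∃ k, P^[k] a = b) ∨ (∃ k, P^[k] b = a) := by
  induction n with
  | zero => intro m a b hab _ _; right; exact ⟨m, by simpa using hab.symm⟩
  | succ n ih =>
    intro m a b hab ha hb
    rcases m with _ | m
    · left; exact ⟨n + 1, by simpa using hab⟩
    · rw [Function.iterate_succ_apply', Function.iterate_succ_apply'] at hab
      have ha' := h.SM_of_child (h.region_sub_iter n a ha)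
      have hb' := h.SM_of_child (h.region_sub_iter m b hb)
      rw [hab] at ha'
      have hs := h.SM_unique ha' hb'
      have := h.inj _ _ hab hs
      exact ih m a b this ha hb

theorem nested' {z : Plane} {a b : V} (ha : z ∈ h.region a) (hb : z ∈ h.region b) :
    (∃ k, P^[k] a = b) ∨ (∃ k, P^[k] b = a) := by
  obtain ⟨n, m, hnm⟩ := h.com a b
  exact h.nested n m a b hnm ha hb

/-- if `z` is on a spoke of `a` inside the region of `a`, and in the region of `b`, then
`a` is a descendant of `b` -/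
theorem desc_of_spoke {z : Plane} {a b : V} {i : Fin 3}
    (hz : z ∈ segment ℝ (pos a) (pos (tr a i))) (ha : z ∈ h.region a) (hb : z ∈ h.region b) :
    ∃ k, P^[k] a = b := by
  rcases h.nested' ha hb with hk | ⟨k, hk⟩
  · exact hk
  · rcases k with _ | k
    · exact ⟨0, by simpa using hk.symm⟩
    · exfalso
      subst hk
      exact h.not_mem_of_spoke k hz hb

theorem antisymm {a b : V} (h1 : ∃ k, P^[k] a = b) (h2 : ∃ k, P^[k] b = a) : a = b := by
  obtain ⟨k, hk⟩ := h1
  obtain ⟨l, hl⟩ := h2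
  rcases Nat.eq_zero_or_pos (l + k) with h0 | h0
  · have : k = 0 := by omega
    subst this; simpa using hk
  · exfalso
    rw [← hk, ← Function.iterate_add_apply] at hl
    obtain ⟨m, hm⟩ : ∃ m, l + k = m + 1 := ⟨l + k - 1, by omega⟩
    rw [hm] at hl
    exact h.iter_ne _ _ hl

theorem eq_of_spoke {z : Plane} {a b : V} {i j : Fin 3}
    (hz : z ∈ segment ℝ (pos a) (pos (tr a i))) (ha : z ∈ h.region a)
    (hz' : z ∈ segment ℝ (pos b) (pos (tr b j))) (hb : z ∈ h.region b) : a = b :=
  h.antisymm (h.desc_of_spoke hz ha hb) (h.desc_of_spoke hz' hb ha)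

theorem q_lt_one (a : V) (i : Fin 3) : q a i < 1 := by
  have h1 := h.qsum a
  have h2 : ∀ j, 0 < q a j := h.qpos a
  rw [Fin.sum_univ_three] at h1
  have := h2 0; have := h2 1; have := h2 2
  fin_cases i <;> simp <;> linarith

theorem injective : Function.Injective pos := by
  intro a b hab
  have ha := h.pos_mem_region a
  have hb := h.pos_mem_region b
  refine h.eq_of_spoke (z := pos a) (i := 0) (j := 0) (left_mem_segment ℝ _ _) ha ?_ ?_
  · rw [hab]; exact left_mem_segment ℝ _ _
  · rw [hab]; exact hb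

theorem openSpoke_sub {a : V} {i : Fin 3} :
    openSegment ℝ (pos a) (pos (tr a i)) ⊆ h.region a := by
  rintro z ⟨u, t, hu, ht, hut, rfl⟩ j
  have hz : u • pos a + t • pos (tr a i) ∈ segment ℝ (pos a) (pos (tr a i)) :=
    ⟨u, t, hu.le, ht.le, hut, rfl⟩
  obtain ⟨t', ht0, ht1, he, hL⟩ := h.L_spoke hz
  have e : u • pos a + t • pos (tr a i) =
      ∑ j, (u * q a j + (if j = i then t else 0)) • pos (tr a j) := by
    simp only [add_smul, Finset.sum_add_distrib, mul_smul, ← Finset.smul_sum, ← h.hpos a]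
    congr 1
    simp [ite_smul]
  have hs : ∑ j, (u * q a j + (if j = i then t else 0)) = 1 := by
    simp only [Finset.sum_add_distrib, ← Finset.mul_sum, h.qsum a]
    simpa using hut
  rw [e, h.L_comb a _ hs]
  have := mul_pos hu (h.qpos a j)
  split_ifs <;> linarith

/-- spokes of the same vertex do not meet -/
theorem spoke_disj {a : V} {i j : Fin 3} (hij : i ≠ j) {z : Plane}
    (hz : z ∈ openSegment ℝ (pos a) (pos (tr a i)))
    (hz' : z ∈ openSegment ℝ (pos a) (pos (tr a j))) : False := by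
  obtain ⟨u, t, hu, ht, hut, rfl⟩ := hz
  obtain ⟨u', t', hu', ht', hut', he⟩ := hz'
  have e : ∀ (u t : ℝ) (i : Fin 3), u • pos a + t • pos (tr a i) =
      ∑ j, (u * q a j + (if j = i then t else 0)) • pos (tr a j) := by
    intro u t i
    simp only [add_smul, Finset.sum_add_distrib, mul_smul, ← Finset.smul_sum, ← h.hpos a]
    congr 1
    simp [ite_smul]
  have hs : ∀ (u t : ℝ) (i : Fin 3), u + t = 1 →
      ∑ j, (u * q a j + (if j = i then t else 0)) = 1 := by
    intro u t i hut
    simp only [Finset.sum_add_distrib, ← Finset.mul_sum, h.qsum a]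
    simpa using hut
  rw [e, e] at he
  have hL : ∀ k, u' * q a k + (if k = j then t' else 0) = u * q a k + (if k = i then t else 0) := by
    intro k
    rw [← h.L_comb a _ (hs u' t' j hut') k, he, h.L_comb a _ (hs u t i hut) k]
  obtain ⟨k, hk1, hk2⟩ := third i j
  have h1 := hL k
  rw [if_neg hk1, if_neg hk2] at h1
  have h2 : u' = u := by
    have := h.qpos a k
    have h3 : (u' - u) * q a k = 0 := by linarith
    rcases mul_eq_zero.1 h3 with h4 | h4
    · linarith
    · exact absurd h4 this.ne'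
  have h3 := hL i
  rw [if_neg hij, if_pos rfl, h2] at h3
  linarith

/-- every point of a closed edge lies on a spoke, inside the region of that spoke's vertex -/
theorem spoke_of_edge {u : V} {i : Fin 3} {z : Plane}
    (hz : z ∈ segment ℝ (pos u) (pos (tr u i))) :
    ∃ w, (∃ n, P^[n] u = w) ∧ ∃ j, z ∈ segment ℝ (pos w) (pos (tr w j)) ∧ z ∈ h.region w := by
  rw [← insert_endpoints_openSegment] at hz
  rcases hz with rfl | rfl | hz
  · exact ⟨u, ⟨0, rfl⟩, 0, left_mem_segment ℝ _ _, h.pos_mem_region _⟩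
  · exact ⟨tr u i, h.anc u i, 0, left_mem_segment ℝ _ _, h.pos_mem_region _⟩
  · exact ⟨u, ⟨0, rfl⟩, i, openSegment_subset_segment ℝ _ _ hz, h.openSpoke_sub hz⟩

theorem vertex_edge (u v w : V) (huv : G.Adj u v) : pos w ∉ openSegment ℝ (pos u) (pos v) := by
  -- reduce to v = tr u i
  have key : ∀ (u : V) (i : Fin 3), pos w ∉ openSegment ℝ (pos u) (pos (tr u i)) := by
    intro u i hz
    have h1 := h.openSpoke_sub hz
    have := h.eq_of_spoke (openSegment_subset_segment ℝ _ _ hz) h1
      (left_mem_segment ℝ (pos w) (pos (tr w 0))) (h.pos_mem_region w)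
    subst this
    obtain ⟨a, t, ha, ht, hat, he⟩ := hz
    have e : a • pos u + t • pos (tr u i) =
      ∑ j, (a * q u j + (if j = i then t else 0)) • pos (tr u j) := by
      simp only [add_smul, Finset.sum_add_distrib, mul_smul, ← Finset.smul_sum, ← h.hpos u]
      congr 1
      simp [ite_smul]
    have hs : ∑ j, (a * q u j + (if j = i then t else 0)) = 1 := by
      simp only [Finset.sum_add_distrib, ← Finset.mul_sum, h.qsum u]
      simpa using hat
    have h2 := h.L_comb u _ hs i
    rw [← e, he, h.L_pos, if_pos rfl] at h2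
    have h3 := h.q_lt_one u i
    nlinarith
  rcases (h.adj u v).1 huv with ⟨j, rfl⟩ | ⟨j, rfl⟩
  · exact key u j
  · rw [openSegment_symm]; exact key v j

theorem edge_edge (u v u' v' : V) (h1 : G.Adj u v) (h2 : G.Adj u' v') (hne : s(u, v) ≠ s(u', v')) :
    Disjoint (openSegment ℝ (pos u) (pos v)) (openSegment ℝ (pos u') (pos v')) := by
  have key : ∀ (u u' : V) (i i' : Fin 3), s(u, tr u i) ≠ s(u', tr u' i') →
      Disjoint (openSegment ℝ (pos u) (pos (tr u i))) (openSegment ℝ (pos u') (pos (tr u' i'))) := by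
    intro u u' i i' hne
    rw [Set.disjoint_left]
    intro z hz hz'
    have := h.eq_of_spoke (openSegment_subset_segment ℝ _ _ hz) (h.openSpoke_sub hz)
      (openSegment_subset_segment ℝ _ _ hz') (h.openSpoke_sub hz')
    subst this
    have hi : i ≠ i' := by rintro rfl; exact hne rfl
    exact h.spoke_disj hi hz hz'
  rcases (h.adj u v).1 h1 with ⟨j, rfl⟩ | ⟨j, rfl⟩ <;>
  rcases (h.adj u' v').1 h2 with ⟨j', rfl⟩ | ⟨j', rfl⟩
  · exact key _ _ _ _ hne
  · rw [openSegment_symm ℝ (pos (tr v' j'))]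
    apply key; rwa [Sym2.eq_swap (a := v')]
  · rw [openSegment_symm ℝ (pos (tr v j))]
    apply key; rwa [Sym2.eq_swap (a := v)]
  · rw [openSegment_symm ℝ (pos (tr v' j')), openSegment_symm ℝ (pos (tr v j))]
    apply key; rwa [Sym2.eq_swap (a := v), Sym2.eq_swap (a := v')]

end Apo

theorem component_eq {D T O : Set Plane} {z : Plane} (hO : IsOpen O) (hOc : IsPreconnected O)
    (hOD : ∀ x ∈ O, x ∉ D) (hz : z ∈ O) (hT : IsClosed T) (hTO : T \ O ⊆ D) (hOT : O ⊆ T) :
    connectedComponentIn Dᶜ z = O := by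
  apply Subset.antisymm
  · have hC : IsPreconnected (connectedComponentIn Dᶜ z) := isPreconnected_connectedComponentIn
    have hzD : z ∈ Dᶜ := hOD z hz
    apply IsPreconnected.subset_left_of_subset_union hO hT.isOpen_compl
      (disjoint_compl_right_iff_subset.2 hOT) _ _ hC
    · intro x hx
      have hxD : x ∈ Dᶜ := connectedComponentIn_subset _ _ hx
      by_cases hxT : x ∈ T
      · left
        by_contra hxO
        exact hxD (hTO ⟨hxT, hxO⟩)
      · right; exact hxT
    · exact ⟨z, mem_connectedComponentIn hzD, hz⟩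
  · exact hOc.subset_connectedComponentIn hz hOD

namespace Apo

variable {V : Type} {G : SimpleGraph V} {P : V → V} {s : V → Fin 3} {tr : V → Fin 3 → V}
  {q : V → Fin 3 → ℝ} {pos : V → Plane} (h : Apo G P s tr q pos)

include h

theorem directed [Nonempty V] : Directed (· ⊆ ·) h.region := by
  intro a b
  obtain ⟨n, m, hnm⟩ := h.com a b
  refine ⟨P^[n] a, h.region_sub_iter n a, ?_⟩
  rw [hnm]; exact h.region_sub_iter m b

theorem locally_finite (hcov : ∀ z, ∃ a, z ∈ h.region a) (K : Set Plane) (hK : IsCompact K) :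
    {e : V × V | G.Adj e.1 e.2 ∧ (segment ℝ (pos e.1) (pos e.2) ∩ K).Nonempty}.Finite := by
  obtain ⟨a0, -⟩ := hcov 0
  have : Nonempty V := ⟨a0⟩
  obtain ⟨a, ha⟩ := hK.elim_directed_cover h.region h.isOpen_region
    (fun z _ => by simpa using hcov z) h.directed
  have hS := (h.fin a).prod (Set.finite_univ (α := Fin 3))
  apply ((hS.image (fun p : V × Fin 3 => (p.1, tr p.1 p.2))).union
    (hS.image (fun p : V × Fin 3 => (tr p.1 p.2, p.1)))).subset
  have key : ∀ (u : V) (i : Fin 3), (segment ℝ (pos u) (pos (tr u i)) ∩ K).Nonempty →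
      ∃ n, P^[n] u = a := by
    rintro u i ⟨z, hz, hzK⟩
    obtain ⟨w, ⟨n, hn⟩, j, hzw, hzr⟩ := h.spoke_of_edge hz
    obtain ⟨k, hk⟩ := h.desc_of_spoke hzw hzr (ha hzK)
    exact ⟨k + n, by rw [Function.iterate_add_apply, hn, hk]⟩
  rintro ⟨u, v⟩ ⟨huv, hne⟩
  rcases (h.adj u v).1 huv with ⟨j, hj⟩ | ⟨j, hj⟩
  · left
    simp only at hj hne
    subst hj
    exact ⟨(u, j), ⟨key u j hne, Set.mem_univ _⟩, rfl⟩
  · right
    simp only at hj hne
    subst hj
    rw [segment_symm] at hne
    exact ⟨(v, j), ⟨key v j hne, Set.mem_univ _⟩, rfl⟩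

theorem deepest {z : Plane} : ∀ (n : ℕ) (a : V), {b | ∃ n, P^[n] b = a}.ncard ≤ n →
    z ∈ h.region a → ∃ b, z ∈ h.region b ∧ ∀ c, P c = b → z ∉ h.region c := by
  intro n
  induction n with
  | zero =>
    intro a hn _
    exfalso
    have : {b | ∃ n, P^[n] b = a} = ∅ := by
      rwa [Nat.le_zero, Set.ncard_eq_zero (h.fin a)] at hn
    have h2 : a ∈ {b | ∃ n, P^[n] b = a} := ⟨0, rfl⟩
    rw [this] at h2
    exact h2
  | succ n ih =>
    intro a hn ha
    by_cases hc : ∀ c, P c = a → z ∉ h.region c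
    · exact ⟨a, ha, hc⟩
    · push Not at hc
      obtain ⟨c, hca, hc⟩ := hc
      apply ih c _ hc
      have hlt : {b | ∃ n, P^[n] b = c}.ncard < {b | ∃ n, P^[n] b = a}.ncard := by
        apply Set.ncard_lt_ncard _ (h.fin a)
        refine ⟨?_, ?_⟩
        · rintro b ⟨m, hm⟩
          exact ⟨m + 1, by rw [Function.iterate_succ_apply', hm, hca]⟩
        · intro hsub
          obtain ⟨m, hm⟩ := hsub (show a ∈ {b | ∃ n, P^[n] b = a} from ⟨0, rfl⟩)
          apply h.iter_ne a m
          rw [Function.iterate_succ_apply', hm, hca]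
      omega

theorem SM_or_spoke {a : V} {z : Plane} (hz : z ∈ h.region a) :
    (∃ i, h.SM a z i) ∨ ∃ i, z ∈ segment ℝ (pos a) (pos (tr a i)) := by
  obtain ⟨i, hi⟩ : ∃ i : Fin 3, ∀ j, h.L a z i / q a i ≤ h.L a z j / q a j :=
    Finite.exists_min (fun i => h.L a z i / q a i)
  by_cases hs : ∀ j, j ≠ i → h.L a z i / q a i < h.L a z j / q a j
  · left
    refine ⟨i, fun j hj => ?_⟩
    have := hs j hj
    rwa [div_lt_div_iff₀ (h.qpos a i) (h.qpos a j)] at this
  · right
    push Not at hs
    obtain ⟨j, hji, hj⟩ := hs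
    obtain ⟨k, hki, hkj⟩ := third i j
    refine ⟨k, ?_⟩
    set m := h.L a z i / q a i with hm
    have hmj : h.L a z j / q a j = m := le_antisymm hj (hi j)
    have e1 : h.L a z i = m * q a i := by
      rw [hm]; field_simp [(h.qpos a i).ne']
    have e2 : h.L a z j = m * q a j := by
      rw [← hmj]; field_simp [(h.qpos a j).ne']
    have hsum := h.L_sum a z
    have hq := h.qsum a
    have hk : m * q a k ≤ h.L a z k := by
      have := hi k
      rwa [le_div_iff₀ (h.qpos a k)] at this
    have hmpos : 0 < m := div_pos (hz i) (h.qpos a i)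
    have s1 : ∀ f : Fin 3 → ℝ, ∑ l, f l = f i + f j + f k := by
      intro f
      rw [Fin.sum_univ_three]
      revert hji hki hkj
      clear * -
      fin_cases i <;> fin_cases j <;> fin_cases k <;> simp <;> intros <;> ring
    rw [s1] at hsum hq
    have e3 : h.L a z k = m * q a k + (1 - m) := by
      rw [e1, e2] at hsum
      have : m * (q a i + q a j + q a k) = m := by rw [hq, mul_one]
      linarith
    refine ⟨m, 1 - m, hmpos.le, by linarith, by ring, ?_⟩
    have e : m • pos a + (1 - m) • pos (tr a k) =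
      ∑ l, (m * q a l + (if l = k then (1 - m) else 0)) • pos (tr a l) := by
      simp only [add_smul, Finset.sum_add_distrib, mul_smul, ← Finset.smul_sum, ← h.hpos a]
      congr 1
      simp [ite_smul]
    rw [e]
    conv_rhs => rw [← h.comb_L a z]
    apply Finset.sum_congr rfl
    intro l _
    congr 1
    have hl : l = i ∨ l = j ∨ l = k := by
      revert hji hki hkj
      clear * -
      revert i j k l
      decide
    rcases hl with rfl | rfl | rfl
    · rw [if_neg (Ne.symm hki), e1, add_zero]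
    · rw [if_neg (Ne.symm hkj), e2, add_zero]
    · rw [if_pos rfl, e3]

theorem face (hcov : ∀ z, ∃ a, z ∈ h.region a) (z : Plane) (hz : z ∉ drawing G pos) :
    ∃ a b c, G.Adj a b ∧ G.Adj b c ∧ G.Adj a c ∧
    connectedComponentIn (drawing G pos)ᶜ z = interior (convexHull ℝ {pos a, pos b, pos c}) := by
  obtain ⟨a0, ha0⟩ := hcov z
  obtain ⟨b, hb, hbc⟩ := h.deepest _ a0 le_rfl ha0
  have hadj : ∀ i, G.Adj b (tr b i) := fun i => (h.adj _ _).2 (Or.inl ⟨i, rfl⟩)
  obtain ⟨i, hi⟩ : ∃ i, h.SM b z i := by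
    rcases h.SM_or_spoke hb with hh | ⟨i, hi⟩
    · exact hh
    · exact absurd ⟨b, tr b i, hadj i, hi⟩ hz
  set w : Fin 3 → V := Function.update (tr b) i b with hw
  have hwadj : ∀ j k, j ≠ k → G.Adj (w j) (w k) := by
    intro j k hjk
    by_cases hj : j = i
    · have hk : k ≠ i := by rintro rfl; exact hjk hj
      rw [hw, hj, Function.update_self, Function.update_of_ne hk]
      exact hadj k
    · by_cases hk : k = i
      · rw [hw, hk, Function.update_self, Function.update_of_ne hj]
        exact (hadj j).symm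
      · rw [hw, Function.update_of_ne hj, Function.update_of_ne hk]
        exact h.adjtr b j k hjk
  have hind : AffineIndependent ℝ (fun j => pos (w j)) := by
    have := ind_update (h.ind b) (q b) (h.qpos b) (h.qsum b) i
    rw [← h.hpos b] at this
    convert this using 1
    ext1 j
    by_cases hj : j = i
    · subst hj; simp [hw]
    · simp [hw, Function.update_of_ne hj]
  have hcoord : ∀ x, h.L b x i = (mkB hind).coord i x * q b i ∧
      ∀ j, j ≠ i → h.L b x j = (mkB hind).coord j x + (mkB hind).coord i x * q b j := by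
    intro x
    apply coord_child (mkB (h.ind b)) (mkB hind) (q b) (h.qsum _) i
    ext1 j
    simp only [mkB_apply]
    rw [← h.hpos b]
    by_cases hj : j = i
    · subst hj; simp [hw]
    · simp [hw, Function.update_of_ne hj]
  have hrange : ({pos (w 0), pos (w 1), pos (w 2)} : Set Plane) = Set.range (mkB hind) := by
    ext x
    simp only [Set.mem_insert_iff, Set.mem_singleton_iff, Set.mem_range, mkB_apply,
      Fin.exists_fin_succ, Fin.exists_fin_zero]
    constructor
    · rintro (rfl | rfl | rfl)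
      · left; rfl
      · right; left; rfl
      · right; right; left; rfl
    · rintro (rfl | rfl | rfl | hF)
      · left; rfl
      · right; left; rfl
      · right; right; rfl
      · exact hF.elim
  refine ⟨w 0, w 1, w 2, hwadj _ _ (by decide), hwadj _ _ (by decide), hwadj _ _ (by decide), ?_⟩
  rw [hrange]
  have hOeq := (mkB hind).interior_convexHull
  have hTeq := (mkB hind).convexHull_eq_nonneg_coord
  have hOSM : ∀ x, (∀ j, 0 < (mkB hind).coord j x) → h.SM b x i ∧ x ∈ h.region b := by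
    intro x hx
    obtain ⟨h1, h2⟩ := hcoord x
    constructor
    · intro j hj
      rw [h1, h2 j hj]
      have := mul_pos (hx j) (h.qpos b i)
      nlinarith
    · intro j
      by_cases hj : j = i
      · subst hj; rw [h1]; exact mul_pos (hx _) (h.qpos _ _)
      · rw [h2 j hj]
        have := hx j
        have := mul_pos (hx i) (h.qpos b j)
        positivity
  apply component_eq (T := convexHull ℝ (Set.range (mkB hind))) isOpen_interior
  · exact (convex_convexHull ℝ _).interior.isPreconnected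
  · intro x hx
    rw [hOeq] at hx
    obtain ⟨hxSM, hxb⟩ := hOSM x hx
    rintro ⟨u, v, huv, hxuv⟩
    have key : ∀ (u : V) (j : Fin 3), x ∉ segment ℝ (pos u) (pos (tr u j)) := by
      intro u j hxu
      obtain ⟨w', -, j', hzw, hzr⟩ := h.spoke_of_edge hxu
      obtain ⟨k, hk⟩ := h.desc_of_spoke hzw hzr hxb
      rcases k with _ | k
      · simp only [Function.iterate_zero, id_eq] at hk
        subst hk
        exact h.spoke_not_SM hzw _ hxSM
      · rw [Function.iterate_succ_apply'] at hk
        have h1 := h.region_sub_iter k w' hzr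
        have h2 := h.SM_of_child h1
        rw [hk] at h2
        have h3 := h.SM_unique h2 hxSM
        refine hbc _ hk ?_
        apply h.child_of_SM
        · rw [hk]; exact hb
        · rw [hk, h3]; exact hi
    rcases (h.adj u v).1 huv with ⟨j, rfl⟩ | ⟨j, rfl⟩
    · exact key _ _ hxuv
    · rw [segment_symm] at hxuv; exact key _ _ hxuv
  · rw [hOeq]
    obtain ⟨h1, h2⟩ := hcoord z
    have hs : 0 < (mkB hind).coord i z := by
      have := hb i
      rw [h1] at this
      exact (pos_iff_pos_of_mul_pos this).2 (h.qpos _ _)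
    intro j
    by_cases hj : j = i
    · subst hj; exact hs
    · have h3 := hi j hj
      rw [h1, h2 j hj] at h3
      have h4 : 0 < (mkB hind).coord j z * q b i := by nlinarith
      exact (pos_iff_pos_of_mul_pos h4).2 (h.qpos _ _)
  · exact (Set.finite_range _).isClosed_convexHull (𝕜 := ℝ)
  · rintro x ⟨hxT, hxO⟩
    rw [hTeq] at hxT
    rw [hOeq] at hxO
    simp only [Set.mem_ofPred_eq, not_forall, not_lt] at hxO hxT
    obtain ⟨l, hl⟩ := hxO
    have hl0 : (mkB hind).coord l x = 0 := le_antisymm hl (hxT l)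
    obtain ⟨j, k, hjl, hkl, hjk⟩ : ∃ j k : Fin 3, j ≠ l ∧ k ≠ l ∧ j ≠ k := by
      clear * -
      revert l; decide
    refine ⟨w j, w k, hwadj j k hjk, (mkB hind).coord j x, (mkB hind).coord k x, hxT j, hxT k, ?_, ?_⟩
    · have := (mkB hind).sum_coord_apply_eq_one x
      rw [← this, Fin.sum_univ_three]
      clear * - hl0 hjl hkl hjk
      fin_cases l <;> fin_cases j <;> fin_cases k <;> simp_all <;> ring
    · conv_rhs => rw [← comb_coord (mkB hind) x]
      rw [Fin.sum_univ_three]
      simp only [mkB_apply]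
      clear * - hl0 hjl hkl hjk
      fin_cases l <;> fin_cases j <;> fin_cases k <;> simp_all <;> abel
  · exact interior_subset

theorem isTriangulated (hcov : ∀ z, ∃ a, z ∈ h.region a) : IsTriangulatedDrawing G pos where
  injective := h.injective
  vertex_edge := h.vertex_edge
  edge_edge := h.edge_edge
  locally_finite := h.locally_finite hcov
  face := h.face hcov

end Apo

/-! ### The concrete drawing -/

/-- barycentric weights of the vertex number `i` of a piece relative to its triple -/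
noncomputable def qt : Fin 6 → Fin 3 → ℝ :=
  ![![1/2, 1/4, 1/4], ![1/2, 3/8, 1/8], ![1/6, 1/6, 2/3], ![1/4, 1/4, 1/2],
    ![1/3, 1/3, 1/3], ![1/3, 1/3, 1/3]]

theorem qt_pos (i : Fin 6) (j : Fin 3) : 0 < qt i j := by
  fin_cases i <;> fin_cases j <;> norm_num [qt]

theorem qt_sum (i : Fin 6) : ∑ j, qt i j = 1 := by
  rw [Fin.sum_univ_three]
  fin_cases i <;> simp [qt] <;> norm_num

/-- point with weights `qt i` in the triangle `F` -/
noncomputable def cmb (i : Fin 6) (F : Fin 3 → Plane) : Plane := ∑ j, qt i j • F j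

noncomputable def p0 (F : Fin 3 → Plane) : Plane := cmb 0 F
noncomputable def p1 (F : Fin 3 → Plane) : Plane := cmb 1 ![p0 F, F 1, F 2]
noncomputable def p2 (F : Fin 3 → Plane) : Plane := cmb 2 ![p0 F, p1 F, F 2]
noncomputable def p3 (F : Fin 3 → Plane) : Plane := cmb 3 ![p0 F, p1 F, p2 F]
noncomputable def p4 (F : Fin 3 → Plane) : Plane := cmb 4 ![p3 F, p1 F, p2 F]
noncomputable def p5 (F : Fin 3 → Plane) : Plane := cmb 5 ![p0 F, p3 F, p2 F]

/-- position of vertex `i` of the piece with outer triangle `F` -/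
noncomputable def pp (F : Fin 3 → Plane) : Fin 6 → Plane :=
  ![p0 F, p1 F, p2 F, p3 F, p4 F, p5 F]

/-- the triangle of the triple of vertex `i` of the piece with outer triangle `F` -/
noncomputable def nf (F : Fin 3 → Plane) : Fin 6 → Fin 3 → Plane :=
  ![F, ![p0 F, F 1, F 2], ![p0 F, p1 F, F 2], ![p0 F, p1 F, p2 F], ![p3 F, p1 F, p2 F],
    ![p0 F, p3 F, p2 F]]

theorem pp_eq (F : Fin 3 → Plane) (i : Fin 6) : pp F i = ∑ j, qt i j • nf F i j := by
  fin_cases i <;> rfl

/-- triangle of the slot `t` -/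
noncomputable def step (t : ℕ) (F : Fin 3 → Plane) : Fin 3 → Plane :=
  fun j => pp F (slotTriple t j)

theorem ind1 {F : Fin 3 → Plane} (h : AffineIndependent ℝ F) (i : Fin 6) (s : Fin 3) :
    AffineIndependent ℝ (Function.update F s (cmb i F)) :=
  ind_update h (qt i) (qt_pos i) (qt_sum i) s

theorem nf_ind {F : Fin 3 → Plane} (h : AffineIndependent ℝ F) (i : Fin 6) :
    AffineIndependent ℝ (nf F i) := by
  have h1 : AffineIndependent ℝ (![p0 F, F 1, F 2]) := by
    convert ind1 h 0 0 using 1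
    ext1 j; fin_cases j <;> simp [p0]
  have h2 : AffineIndependent ℝ (![p0 F, p1 F, F 2]) := by
    convert ind1 h1 1 1 using 1
    ext1 j; fin_cases j <;> simp [p1]
  have h3 : AffineIndependent ℝ (![p0 F, p1 F, p2 F]) := by
    convert ind1 h2 2 2 using 1
    ext1 j; fin_cases j <;> simp [p2]
  have h4 : AffineIndependent ℝ (![p3 F, p1 F, p2 F]) := by
    convert ind1 h3 3 0 using 1
    ext1 j; fin_cases j <;> simp [p3]
  have h5 : AffineIndependent ℝ (![p0 F, p3 F, p2 F]) := by
    convert ind1 h3 3 1 using 1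
    ext1 j; fin_cases j <;> simp [p3]
  fin_cases i
  · exact h
  · exact h1
  · exact h2
  · exact h3
  · exact h4
  · exact h5

theorem step_ind {F : Fin 3 → Plane} (h : AffineIndependent ℝ F) (t : ℕ) :
    AffineIndependent ℝ (step t F) := by
  have h3 := nf_ind h 3
  have h4 := nf_ind h 4
  have h5 := nf_ind h 5
  have k3 : ∀ s, AffineIndependent ℝ (Function.update (nf F 3) s (pp F 3)) :=
    fun s => ind1 h3 3 s
  have k4 : ∀ s, AffineIndependent ℝ (Function.update (nf F 4) s (pp F 4)) :=
    fun s => ind1 h4 4 s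
  have k5 : ∀ s, AffineIndependent ℝ (Function.update (nf F 5) s (pp F 5)) :=
    fun s => ind1 h5 5 s
  unfold step slotTriple
  split_ifs
  · convert k3 2 using 1
    ext1 j; fin_cases j <;> simp [pp, nf]
  · convert k4 0 using 1
    ext1 j; fin_cases j <;> simp [pp, nf]
  · convert k4 1 using 1
    ext1 j; fin_cases j <;> simp [pp, nf]
  · convert k4 2 using 1
    ext1 j; fin_cases j <;> simp [pp, nf]
  · convert k5 0 using 1
    ext1 j; fin_cases j <;> simp [pp, nf]
  · convert k5 1 using 1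
    ext1 j; fin_cases j <;> simp [pp, nf]
  · convert k5 2 using 1
    ext1 j; fin_cases j <;> simp [pp, nf]

/-- the reference triangle, centred at the origin -/
noncomputable def e3 : Fin 3 → Plane := ![!₂[-1, -1], !₂[2, -1], !₂[-1, 2]]

theorem e3_sum : e3 0 + e3 1 + e3 2 = 0 := by
  ext i; fin_cases i <;> simp [e3] <;> norm_num

theorem step0_of_sum {F : Fin 3 → Plane} (h : F 0 + F 1 + F 2 = 0) :
    step 0 F = (1/4 : ℝ) • F := by
  have h2 : F 2 = -(F 0) - F 1 := by
    have : F 2 = (F 0 + F 1 + F 2) - F 0 - F 1 := by abel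
    rw [this, h]; abel
  have e0 : p0 F = (1/4 : ℝ) • F 0 := by
    simp only [p0, cmb, Fin.sum_univ_three, qt]
    simp [h2]; module
  have e1 : p1 F = (1/4 : ℝ) • F 1 := by
    simp only [p1, cmb, Fin.sum_univ_three, qt, e0]
    simp [h2]; module
  have e3 : p3 F = (1/4 : ℝ) • F 2 := by
    simp only [p3, p2, cmb, Fin.sum_univ_three, qt, e0, e1]
    simp [h2]; module
  ext1 j
  fin_cases j
  · simpa [step, slotTriple, pp] using e0
  · simpa [step, slotTriple, pp] using e1
  · simpa [step, slotTriple, pp] using e3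

theorem step0_smul (c : ℝ) : step 0 ((4 * c) • e3) = c • e3 := by
  rw [step0_of_sum]
  · rw [smul_smul]; congr 1; ring
  · simp only [Pi.smul_apply, ← smul_add, e3_sum, smul_zero]

theorem step0_iter (n : ℕ) : ∀ c : ℝ, (step 0)^[n] ((4 ^ n * c) • e3) = c • e3 := by
  induction n with
  | zero => intro c; simp
  | succ n ih =>
    intro c
    rw [Function.iterate_succ_apply]
    have : (4:ℝ) ^ (n + 1) * c = 4 * (4 ^ n * c) := by ring
    rw [this, step0_smul, ih]

/-- outer triangles of the blocks of level `k` -/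
noncomputable def Bk (k x : ℕ) : Fin 3 → Plane :=
  if h0 : x = 0 then ((4:ℝ) ^ (2 ^ k - 1)) • e3
  else if x % 8 = 1 then Bk (k + 1) (x / 8)
  else step (x % 8) ((step 0)^[2 ^ k - 1] (Bk (k + 1) (x / 8)))
termination_by x
decreasing_by all_goals omega

theorem Bk_zero (k : ℕ) : Bk k 0 = ((4:ℝ) ^ (2 ^ k - 1)) • e3 := by
  rw [Bk]; simp

theorem Bk_one {k x : ℕ} (h : x % 8 = 1) : Bk k x = Bk (k + 1) (x / 8) := by
  rw [Bk, dif_neg (by omega), if_pos h]

theorem Bk_ne {k x : ℕ} (h0 : x ≠ 0) (h : x % 8 ≠ 1) :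
    Bk k x = step (x % 8) ((step 0)^[2 ^ k - 1] (Bk (k + 1) (x / 8))) := by
  rw [Bk, dif_neg h0, if_neg h]

theorem par_pos (x : ℕ) : par x ≠ 0 := by
  induction x using Nat.strong_induction_on with
  | _ x ih =>
    by_cases h : x % 8 = 1
    · rw [par_one h]; have := ih (x / 8) (by omega); omega
    · rw [par_ne h]; omega

theorem Bk_rel : ∀ x k : ℕ, Bk k x = step (slot x) ((step 0)^[2 ^ k - 1] (Bk k (par x))) := by
  intro x
  induction x using Nat.strong_induction_on with
  | _ x ih =>
    intro k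
    have hk : 1 ≤ 2 ^ k := Nat.one_le_two_pow
    by_cases h0 : x = 0
    · subst h0
      have e1 : par 0 = 1 := by rw [par_ne (by norm_num)]
      have e2 : slot 0 = 0 := by rw [slot_ne (by norm_num)]
      have e1' : Bk k 1 = ((4:ℝ) ^ (2 ^ (k + 1) - 1)) • e3 := by
        rw [Bk_one (by norm_num)]; exact Bk_zero (k + 1)
      rw [e1, e2, e1', Bk_zero]
      have e3 : (2:ℕ) ^ (k + 1) - 1 = (2 ^ k - 1) + 2 ^ k := by rw [pow_succ]; omega
      rw [e3, pow_add, step0_iter]
      have e4 : (4:ℝ) ^ (2 ^ k) = 4 * 4 ^ (2 ^ k - 1) := by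
        rw [← pow_succ']; congr 1; omega
      rw [e4, step0_smul]
    · by_cases h : x % 8 = 1
      · rw [Bk_one h, slot_one h, par_one h, ih (x / 8) (by omega) (k + 1)]
        have hy := par_pos (x / 8)
        rw [Bk_ne (x := 8 * par (x / 8)) (by omega) (by omega)]
        have e1 : 8 * par (x / 8) % 8 = 0 := by omega
        have e2 : 8 * par (x / 8) / 8 = par (x / 8) := by omega
        rw [e1, e2, ← Function.iterate_succ_apply' (step 0), ← Function.iterate_add_apply]
        congr 2
        rw [pow_succ]; omega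
      · have e1 : (8 * (x / 8) + 1) / 8 = x / 8 := by omega
        rw [Bk_ne h0 h, slot_ne h, par_ne h, Bk_one (x := 8 * (x / 8) + 1) (by omega), e1]

theorem e3_ind : AffineIndependent ℝ e3 := by
  rw [affineIndependent_iff_of_fintype]
  intro w hw hs i
  rw [Finset.weightedVSub_eq_linear_combination _ hw] at hs
  rw [Fin.sum_univ_three] at hw hs
  have h0 := congrArg (fun v : Plane => v 0) hs
  have h1 := congrArg (fun v : Plane => v 1) hs
  simp [e3] at h0 h1
  have a1 : w 1 = 0 := by linarith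
  have a2 : w 2 = 0 := by linarith
  have a0 : w 0 = 0 := by linarith
  fin_cases i <;> simp [a0, a1, a2]

theorem smul_ind {F : Fin 3 → Plane} (h : AffineIndependent ℝ F) {c : ℝ} (hc : c ≠ 0) :
    AffineIndependent ℝ (c • F) := by
  rw [affineIndependent_iff_of_fintype] at h ⊢
  intro w hw hs i
  apply h w hw _ i
  rw [Finset.weightedVSub_eq_linear_combination _ hw] at hs ⊢
  have : ∑ i, w i • (c • F) i = c • ∑ i, w i • F i := by
    rw [Finset.smul_sum]
    apply Finset.sum_congr rfl
    intro i _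
    simp only [Pi.smul_apply]
    rw [smul_comm]
  rw [this] at hs
  rcases smul_eq_zero.1 hs with h | h
  · exact absurd h hc
  · exact h

theorem Bk_ind : ∀ x k : ℕ, AffineIndependent ℝ (Bk k x) := by
  intro x
  induction x using Nat.strong_induction_on with
  | _ x ih =>
    intro k
    by_cases h0 : x = 0
    · subst h0; rw [Bk_zero]; exact smul_ind e3_ind (by positivity)
    · by_cases h : x % 8 = 1
      · rw [Bk_one h]; exact ih _ (by omega) _
      · rw [Bk_ne h0 h]
        apply step_ind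
        have key : ∀ n, AffineIndependent ℝ ((step 0)^[n] (Bk (k + 1) (x / 8))) := by
          intro n
          induction n with
          | zero => exact ih _ (by omega) _
          | succ n ihn => rw [Function.iterate_succ_apply']; exact step_ind ihn 0
        exact key _

/-- positions of the vertices -/
noncomputable def pos (a : ℕ × Fin 6) : Plane := pp (Bk 0 a.1) a.2

theorem Bk0_apply (x : ℕ) (j : Fin 3) : Bk 0 x j = pos (par x, slotTriple (slot x) j) := by
  have := Bk_rel x 0
  simp only [pow_zero, Nat.sub_self, Function.iterate_zero, id_eq] at this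
  conv_lhs => rw [this]
  rfl

theorem fr_eq (a : ℕ × Fin 6) (j : Fin 3) : pos (tr a j) = nf (Bk 0 a.1) a.2 j := by
  obtain ⟨x, i⟩ := a
  fin_cases i
  · simp [tr, nf, Bk0_apply]
  · fin_cases j <;> simp [tr, nf, Bk0_apply] <;> rfl
  · fin_cases j <;> simp [tr, nf, Bk0_apply] <;> rfl
  · fin_cases j <;> simp [tr, nf] <;> rfl
  · fin_cases j <;> simp [tr, nf] <;> rfl
  · fin_cases j <;> simp [tr, nf] <;> rfl

/-- number of the vertex carrying slot `t` -/
def snode (t : ℕ) : Fin 6 := if t = 0 then 3 else if t ≤ 4 then 4 else 5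

/-- index of slot `t` at that vertex -/
def sidx (t : ℕ) : Fin 3 :=
  if t = 0 then 2 else if t = 2 then 0 else if t = 3 then 1 else if t = 4 then 2
  else if t = 5 then 0 else if t = 6 then 1 else 2

/-- parent of a vertex -/
def PV (a : ℕ × Fin 6) : ℕ × Fin 6 :=
  if a.2 = 0 then (par a.1, snode (slot a.1))
  else if a.2 = 1 then (a.1, 0)
  else if a.2 = 2 then (a.1, 1)
  else if a.2 = 3 then (a.1, 2)
  else (a.1, 3)

/-- slot index of a vertex -/
def sV (a : ℕ × Fin 6) : Fin 3 :=
  if a.2 = 0 then sidx (slot a.1)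
  else if a.2 = 1 then 0
  else if a.2 = 2 then 1
  else if a.2 = 3 then 2
  else if a.2 = 4 then 0
  else 1

theorem slot_cases (x : ℕ) : slot x = 0 ∨ slot x = 2 ∨ slot x = 3 ∨ slot x = 4 ∨ slot x = 5 ∨
    slot x = 6 ∨ slot x = 7 := by
  have h1 := slot_lt x
  have h2 := slot_ne_one x
  omega

theorem htr (a : ℕ × Fin 6) : tr a = Function.update (tr (PV a)) (sV a) (PV a) := by
  obtain ⟨x, i⟩ := a
  ext1 j
  fin_cases i
  · rcases slot_cases x with h | h | h | h | h | h | h <;>
    fin_cases j <;> simp [tr, PV, sV, h, slotTriple, snode, sidx]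
  · fin_cases j <;> simp [tr, PV, sV]
  · fin_cases j <;> simp [tr, PV, sV]
  · fin_cases j <;> simp [tr, PV, sV]
  · fin_cases j <;> simp [tr, PV, sV]
  · fin_cases j <;> simp [tr, PV, sV]

theorem PV_inj (a b : ℕ × Fin 6) (h1 : PV a = PV b) (h2 : sV a = sV b) : a = b := by
  obtain ⟨x, i⟩ := a
  obtain ⟨y, j⟩ := b
  have hpx := slot_cases x
  have hpy := slot_cases y
  fin_cases i <;> fin_cases j <;> simp [PV, sV] at h1 h2 ⊢
  · -- both number 0
    apply par_slot_inj x y h1.1
    have h3 := h1.2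
    rcases hpx with h | h | h | h | h | h | h <;> rcases hpy with h' | h' | h' | h' | h' | h' | h' <;>
      simp [h, h', snode, sidx] at h2 h3 ⊢
  all_goals first
    | exact h1
    | (exfalso; clear hpy; rcases hpx with h | h | h | h | h | h | h <;>
        simp_all [snode, sidx]; done)
    | (exfalso; clear hpx; rcases hpy with h | h | h | h | h | h | h <;>
        simp_all [snode, sidx]; done)

theorem PV_fst (a : ℕ × Fin 6) : (PV a).1 = a.1 ∨ (PV a).1 = par a.1 := by
  obtain ⟨x, i⟩ := a
  fin_cases i <;> simp [PV]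

theorem PV_down (x : ℕ) (i : Fin 6) : ∃ n, PV^[n] (x, i) = (x, 0) := by
  fin_cases i
  · exact ⟨0, rfl⟩
  · exact ⟨1, rfl⟩
  · exact ⟨2, rfl⟩
  · exact ⟨3, rfl⟩
  · exact ⟨4, rfl⟩
  · exact ⟨4, rfl⟩

theorem PV_up (x : ℕ) (m : ℕ) : ∃ n, PV^[n] (x, 0) = (par^[m] x, 0) := by
  induction m with
  | zero => exact ⟨0, rfl⟩
  | succ m ih =>
    obtain ⟨n, hn⟩ := ih
    obtain ⟨l, hl⟩ := PV_down (par (par^[m] x)) (snode (slot (par^[m] x)))
    have h1 : PV (par^[m] x, 0) = (par (par^[m] x), snode (slot (par^[m] x))) := rfl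
    refine ⟨l + (1 + n), ?_⟩
    rw [Function.iterate_add_apply, Function.iterate_add_apply, hn, Function.iterate_one, h1,
      Function.iterate_succ_apply' par, hl]

theorem PV_com (a b : ℕ × Fin 6) : ∃ n m, PV^[n] a = PV^[m] b := by
  obtain ⟨x, i⟩ := a
  obtain ⟨y, j⟩ := b
  obtain ⟨-, n, m, -, hD⟩ := exists_D x y
  obtain ⟨a1, h1⟩ := PV_down x i
  obtain ⟨b1, h2⟩ := PV_down y j
  obtain ⟨a2, h3⟩ := PV_up x n
  obtain ⟨b2, h4⟩ := PV_up y m
  refine ⟨a2 + a1, b2 + b1, ?_⟩
  rw [Function.iterate_add_apply, Function.iterate_add_apply, h1, h2, h3, h4, hD]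

theorem PV_anc (a : ℕ × Fin 6) (j : Fin 3) : ∃ n, PV^[n] a = tr a j := by
  obtain ⟨x, i⟩ := a
  have key : ∀ j : Fin 3, ∃ n, PV^[n] (x, 0) = tr (x, 0) j := by
    intro j
    have h0 : PV (x, 0) = (par x, snode (slot x)) := rfl
    have h1 : tr (x, 0) j = (par x, slotTriple (slot x) j) := rfl
    rw [h1]
    suffices h : ∃ n, PV^[n] (par x, snode (slot x)) = (par x, slotTriple (slot x) j) by
      obtain ⟨n, hn⟩ := h
      exact ⟨n + 1, by rw [Function.iterate_succ_apply, h0, hn]⟩
    rcases slot_cases x with h | h | h | h | h | h | h <;> rw [h]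
    · fin_cases j
      · exact ⟨3, rfl⟩
      · exact ⟨2, rfl⟩
      · exact ⟨0, rfl⟩
    · fin_cases j
      · exact ⟨0, rfl⟩
      · exact ⟨3, rfl⟩
      · exact ⟨2, rfl⟩
    · fin_cases j
      · exact ⟨1, rfl⟩
      · exact ⟨0, rfl⟩
      · exact ⟨2, rfl⟩
    · fin_cases j
      · exact ⟨1, rfl⟩
      · exact ⟨3, rfl⟩
      · exact ⟨0, rfl⟩
    · fin_cases j
      · exact ⟨0, rfl⟩
      · exact ⟨1, rfl⟩
      · exact ⟨2, rfl⟩
    · fin_cases j
      · exact ⟨4, rfl⟩
      · exact ⟨0, rfl⟩
      · exact ⟨2, rfl⟩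
    · fin_cases j
      · exact ⟨4, rfl⟩
      · exact ⟨1, rfl⟩
      · exact ⟨0, rfl⟩
  have key1 : ∀ j : Fin 3, ∃ n, PV^[n] (x, 1) = tr (x, 0) j := by
    intro j; obtain ⟨n, hn⟩ := key j; exact ⟨n + 1, hn⟩
  have key2 : ∀ j : Fin 3, ∃ n, PV^[n] (x, 2) = tr (x, 0) j := by
    intro j; obtain ⟨n, hn⟩ := key j; exact ⟨n + 2, hn⟩
  fin_cases i
  · exact key j
  · fin_cases j
    · exact ⟨1, rfl⟩
    · exact key1 1
    · exact key1 2
  · fin_cases j
    · exact ⟨2, rfl⟩
    · exact ⟨1, rfl⟩
    · exact key2 2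
  · fin_cases j
    · exact ⟨3, rfl⟩
    · exact ⟨2, rfl⟩
    · exact ⟨1, rfl⟩
  · fin_cases j
    · exact ⟨1, rfl⟩
    · exact ⟨3, rfl⟩
    · exact ⟨2, rfl⟩
  · fin_cases j
    · exact ⟨4, rfl⟩
    · exact ⟨1, rfl⟩
    · exact ⟨2, rfl⟩

theorem PV_fin (a : ℕ × Fin 6) : {b | ∃ n, PV^[n] b = a}.Finite := by
  apply ((desc_finite a.1).prod (Set.finite_univ (α := Fin 6))).subset
  rintro b ⟨n, hn⟩
  refine ⟨?_, Set.mem_univ _⟩
  induction n generalizing b with
  | zero => exact ⟨0, by simp at hn; rw [hn]; rfl⟩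
  | succ n ih =>
    rw [Function.iterate_succ_apply] at hn
    obtain ⟨l, hl⟩ := ih hn
    rcases PV_fst b with h | h
    · exact ⟨l, by rw [← h]; exact hl⟩
    · exact ⟨l + 1, by rw [Function.iterate_succ_apply, ← h]; exact hl⟩

theorem tr_adj (a : ℕ × Fin 6) (i j : Fin 3) (hij : i ≠ j) : TG.Adj (tr a i) (tr a j) := by
  obtain ⟨x, k⟩ := a
  have hp : ∀ (y : ℕ), TG.Adj (y, 1) (y, 0) ∧ TG.Adj (y, 2) (y, 0) ∧ TG.Adj (y, 2) (y, 1) ∧
      TG.Adj (y, 3) (y, 0) ∧ TG.Adj (y, 3) (y, 1) ∧ TG.Adj (y, 3) (y, 2) ∧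
      TG.Adj (y, 4) (y, 3) ∧ TG.Adj (y, 4) (y, 1) ∧ TG.Adj (y, 4) (y, 2) ∧
      TG.Adj (y, 5) (y, 0) ∧ TG.Adj (y, 5) (y, 3) ∧ TG.Adj (y, 5) (y, 2) := by
    intro y
    exact ⟨adj_tr (y, 1) 0, adj_tr (y, 2) 0, adj_tr (y, 2) 1, adj_tr (y, 3) 0, adj_tr (y, 3) 1,
      adj_tr (y, 3) 2, adj_tr (y, 4) 0, adj_tr (y, 4) 1, adj_tr (y, 4) 2, adj_tr (y, 5) 0,
      adj_tr (y, 5) 1, adj_tr (y, 5) 2⟩
  have key : ∀ i j : Fin 3, i ≠ j → TG.Adj (tr (x, 0) i) (tr (x, 0) j) := by
    intro i j hij
    have h1 : ∀ j, tr (x, 0) j = (par x, slotTriple (slot x) j) := fun j => rfl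
    rw [h1, h1]
    obtain ⟨a1, a2, a3, a4, a5, a6, a7, a8, a9, a10, a11, a12⟩ := hp (par x)
    rcases slot_cases x with h | h | h | h | h | h | h <;> rw [h] <;>
    fin_cases i <;> fin_cases j <;> simp [slotTriple] at hij ⊢ <;>
    first | assumption | (apply SimpleGraph.Adj.symm; assumption)
  have kx : ∀ j : Fin 3, TG.Adj (x, 0) (tr (x, 0) j) := fun j => adj_tr _ _
  obtain ⟨a1, a2, a3, a4, a5, a6, a7, a8, a9, a10, a11, a12⟩ := hp x
  have k1 : TG.Adj (x, 1) (tr (x, 0) 2) := adj_tr (x, 1) 2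
  fin_cases k
  · exact key i j hij
  · fin_cases i <;> fin_cases j <;> simp [tr] at hij ⊢
    · exact kx 1
    · exact kx 2
    · exact (kx 1).symm
    · exact key 1 2 (by decide)
    · exact (kx 2).symm
    · exact key 2 1 (by decide)
  · fin_cases i <;> fin_cases j <;> simp [tr] at hij ⊢
    · exact a1.symm
    · exact kx 2
    · exact a1
    · exact k1
    · exact (kx 2).symm
    · exact k1.symm
  · fin_cases i <;> fin_cases j <;> simp [tr] at hij ⊢ <;>
    first | assumption | (apply SimpleGraph.Adj.symm; assumption)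
  · fin_cases i <;> fin_cases j <;> simp [tr] at hij ⊢ <;>
    first | assumption | (apply SimpleGraph.Adj.symm; assumption)
  · fin_cases i <;> fin_cases j <;> simp [tr] at hij ⊢ <;>
    first | assumption | (apply SimpleGraph.Adj.symm; assumption)

theorem apo : Apo TG PV sV tr (fun a => qt a.2) pos where
  adj := adj_iff
  htr := htr
  inj := PV_inj
  qpos := fun a j => qt_pos _ _
  qsum := fun a => qt_sum _
  hpos := by
    intro a
    simp only [fr_eq]
    exact pp_eq _ _
  ind := by
    intro a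
    simp only [fr_eq]
    exact nf_ind (Bk_ind _ _) _
  com := PV_com
  anc := PV_anc
  fin := PV_fin
  adjtr := tr_adj

/-- the vertices 0, 1, 11, 111, ... (base 8) -/
def rp : ℕ → ℕ
  | 0 => 0
  | k + 1 => 8 * rp k + 1

theorem Bk_rp (k : ℕ) : ∀ j, Bk j (rp k) = ((4:ℝ) ^ (2 ^ (j + k) - 1)) • e3 := by
  induction k with
  | zero => intro j; exact Bk_zero j
  | succ k ih =>
    intro j
    rw [rp, Bk_one (by omega)]
    have : (8 * rp k + 1) / 8 = rp k := by omega
    rw [this, ih]
    congr 4
    omega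

theorem cov (z : Plane) : ∃ a, z ∈ apo.region a := by
  obtain ⟨k, hk⟩ : ∃ k : ℕ, |z 0| + |z 1| < (4:ℝ) ^ (2 ^ k - 1) := by
    obtain ⟨n, hn⟩ := pow_unbounded_of_one_lt (|z 0| + |z 1|) (show (1:ℝ) < 4 by norm_num)
    refine ⟨n, hn.trans_le ?_⟩
    apply pow_le_pow_right₀ (by norm_num)
    have := Nat.lt_two_pow_self (n := n)
    omega
  set c : ℝ := (4:ℝ) ^ (2 ^ k - 1) with hc
  have hcpos : 0 < c := by positivity
  refine ⟨(rp k, 0), ?_⟩
  set w : Fin 3 → ℝ := ![(1 - z 0 / c - z 1 / c) / 3, (z 0 / c + 1) / 3, (z 1 / c + 1) / 3] with hw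
  have hsum : ∑ j, w j = 1 := by
    rw [Fin.sum_univ_three]; simp [hw]; ring
  have hfr : ∀ j, pos (tr (rp k, 0) j) = c • e3 j := by
    intro j
    rw [fr_eq]
    simp only [nf]
    have := Bk_rp k 0
    rw [zero_add] at this
    simp [this, hc]
  have hz : z = ∑ j, w j • pos (tr (rp k, 0) j) := by
    simp only [hfr]
    rw [Fin.sum_univ_three]
    ext i
    fin_cases i
    · simp [hw, e3]; field_simp; ring
    · simp [hw, e3]; field_simp; ring
  intro j
  rw [hz, apo.L_comb _ w hsum]
  have h1 : z 0 / c + z 1 / c < 1 := by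
    rw [← add_div, div_lt_one hcpos]
    linarith [le_abs_self (z 0), le_abs_self (z 1)]
  have h2 : -1 < z 0 / c := by
    rw [lt_div_iff₀ hcpos]
    linarith [neg_abs_le (z 0), abs_nonneg (z 1)]
  have h3 : -1 < z 1 / c := by
    rw [lt_div_iff₀ hcpos]
    linarith [neg_abs_le (z 1), abs_nonneg (z 0)]
  fin_cases j <;> simp [hw] <;> linarith

theorem isTri : IsTriangulatedDrawing TG pos := apo.isTriangulated cov

/-! ### Main theorem -/

theorem nbr_finite (v : ℕ × Fin 6) : (TG.neighborSet v).Finite := by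
  apply (ball_finite v 1).subset
  intro w hw
  exact edist_le_of_adj hw

theorem growth : UniformVolumeGrowth TG (fun n => (n : ℝ) ^ 3) := by
  refine ⟨1 / 8000, 400000, by norm_num, by norm_num, ?_⟩
  intro n hn v
  refine ⟨ball_finite v n, ?_, ?_⟩
  · have h := ball_lower v n hn
    have h' : ((n ^ 3 : ℕ) : ℝ) < ((8000 * (ball TG v n).ncard : ℕ) : ℝ) := by exact_mod_cast h
    push_cast at h'
    show 1 / 8000 * (n : ℝ) ^ 3 < _
    linarith
  · have h := ball_upper v n hn
    have h' : (((ball TG v n).ncard : ℕ) : ℝ) < ((400000 * n ^ 3 : ℕ) : ℝ) := by exact_mod_cast h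
    push_cast at h'
    exact h'

/-- There is a planar triangulation (infinite, connected, locally finite, drawn in the plane
with all faces triangles) with uniform volume growth `n ^ 3` on which Bernoulli site
percolation has no infinite open cluster for any `p < 1`, that is, with critical value `1`. -/
theorem result : ∃ (V : Type) (G : SimpleGraph V),
    Infinite V ∧ G.Connected ∧ (∀ v, (G.neighborSet v).Finite) ∧
    (∃ pos : V → Plane, IsTriangulatedDrawing G pos) ∧
    UniformVolumeGrowth G (fun n => (n : ℝ) ^ 3) ∧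
    (∀ (v : V) (p : unitInterval), (p : ℝ) < 1 → theta G v p = 0) ∧
    (∀ v : V, pc G v = 1) :=
  ⟨ℕ × Fin 6, TG, inferInstance, TG_connected, nbr_finite, ⟨pos, isTri⟩, growth,
    fun v p hp => theta_zero v p hp, pc_eq_one⟩

end Pool.Agent.Results.MP_295da9_pr.Disproof
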